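import Mathlib

/-!
# The sign of the coefficients of a power series with a pole at one
-/

set_option autoImplicit false

namespace Pool.Agent.P8H35.TR

open Polynomial

theorem coeff_eq_sum {F G : PowerSeries ℝ} (h : (1 - PowerSeries.X) * F = G) (n : ℕ) :
    PowerSeries.coeff n F = ∑ i ∈ Finset.range (n + 1), PowerSeries.coeff i G := by
  induction n with
  | zero =>
    rw [← h, Finset.sum_range_one, sub_mul, one_mul, map_sub, PowerSeries.coeff_zero_X_mul,
      sub_zero]
  | succ n ih =>
    rw [Finset.sum_range_succ, ← ih, ← h, sub_mul, one_mul, map_sub,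
      PowerSeries.coeff_succ_X_mul]
    ring

theorem coeff_neg {m : ℕ} : ∀ {F : PowerSeries ℝ} {p : ℝ[X]},
    (1 - PowerSeries.X) ^ (m + 1) * F = (p : PowerSeries ℝ) → eval 1 p < 0 →
    ∃ c : ℝ, 0 < c ∧ ∃ N, ∀ n, N ≤ n → PowerSeries.coeff n F ≤ -c := by
  induction m with
  | zero =>
    intro F p h hp
    rw [zero_add, pow_one] at h
    refine ⟨-(eval 1 p), neg_pos.2 hp, p.natDegree, fun n hn => ?_⟩
    rw [coeff_eq_sum h, neg_neg, eval_eq_sum_range' (n := n + 1) (by omega)]
    apply le_of_eq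
    apply Finset.sum_congr rfl
    intro i _
    rw [Polynomial.coeff_coe, one_pow, mul_one]
  | succ m ih =>
    intro F p h hp
    obtain ⟨c, hc, N, hN⟩ := ih (F := (1 - PowerSeries.X) * F) (p := p)
      (by rw [← h, pow_succ (n := m + 1), mul_assoc]) hp
    set G := (1 - PowerSeries.X) * F with hG
    set C₀ : ℝ := ∑ i ∈ Finset.range N, PowerSeries.coeff i G with hC
    have h1 : ∀ j : ℕ, PowerSeries.coeff (N + j) F ≤ C₀ - c * (j + 1) := by
      intro j
      rw [coeff_eq_sum (F := F) (G := G) rfl]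
      induction j with
      | zero =>
        rw [add_zero, Finset.sum_range_succ]
        have h2 := hN N le_rfl
        push_cast
        linarith
      | succ j ihj =>
        rw [← add_assoc, Finset.sum_range_succ]
        have h2 := hN (N + j + 1) (by omega)
        push_cast
        linarith
    obtain ⟨M, hM⟩ := exists_nat_gt ((C₀ + 1) / c)
    refine ⟨1, one_pos, N + M, fun n hn => ?_⟩
    obtain ⟨j, rfl⟩ : ∃ j, n = N + j := ⟨n - N, by omega⟩
    have h2 := h1 j
    have h3 : (M : ℝ) ≤ j := by exact_mod_cast (by omega : M ≤ j)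
    rw [div_lt_iff₀ hc] at hM
    nlinarith

/-- the real part of a polynomial -/
noncomputable def pre (h : ℂ[X]) : ℝ[X] :=
  ∑ i ∈ Finset.range (h.natDegree + 1), C (h.coeff i).re * X ^ i

theorem pre_coeff (h : ℂ[X]) (i : ℕ) : (pre h).coeff i = (h.coeff i).re := by
  rw [pre, finsetSum_coeff]
  simp only [coeff_C_mul, coeff_X_pow, mul_ite, mul_one, mul_zero]
  rw [Finset.sum_ite_eq, ite_eq_left_iff]
  intro hi
  rw [Finset.mem_range, not_lt] at hi
  rw [coeff_eq_zero_of_natDegree_lt (by omega)]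
  rfl

/-- the real part of a power series -/
noncomputable def sre (F : PowerSeries ℂ) : PowerSeries ℝ :=
  PowerSeries.mk fun n => (PowerSeries.coeff n F).re

theorem sre_one_sub (F : PowerSeries ℂ) :
    sre ((1 - PowerSeries.X) * F) = (1 - PowerSeries.X) * sre F := by
  ext n
  rw [sre, PowerSeries.coeff_mk]
  cases n with
  | zero =>
    rw [sub_mul, sub_mul, one_mul, one_mul, map_sub, map_sub, PowerSeries.coeff_zero_X_mul,
      PowerSeries.coeff_zero_X_mul, sub_zero, sub_zero, sre, PowerSeries.coeff_mk]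
  | succ n =>
    rw [sub_mul, sub_mul, one_mul, one_mul, map_sub, map_sub, PowerSeries.coeff_succ_X_mul,
      PowerSeries.coeff_succ_X_mul, sre, PowerSeries.coeff_mk, PowerSeries.coeff_mk,
      Complex.sub_re]

theorem sre_one_sub_pow (r : ℕ) : ∀ (F : PowerSeries ℂ),
    sre ((1 - PowerSeries.X) ^ r * F) = (1 - PowerSeries.X) ^ r * sre F := by
  induction r with
  | zero => intro F; rw [pow_zero, pow_zero, one_mul, one_mul]
  | succ r ih =>
    intro F
    rw [pow_succ, pow_succ, mul_assoc, ih, sre_one_sub, mul_assoc]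

theorem sre_coe (h : ℂ[X]) : sre (h : PowerSeries ℂ) = (pre h : PowerSeries ℝ) := by
  ext n
  rw [sre, PowerSeries.coeff_mk, Polynomial.coeff_coe, Polynomial.coeff_coe, pre_coeff]

/-- The series argument: the numerator has degree three and real coefficients `1, a, b, w`. -/
theorem three_contra {F : PowerSeries ℂ} {h : ℂ[X]} {d : ℕ} (hd : 2 ≤ d)
    (hF : (1 - PowerSeries.X) ^ d * F = (h : PowerSeries ℂ)) (hdeg : h.natDegree = 3)
    (h0 : h.coeff 0 = 1) {w : ℂ} (h3 : h.coeff 3 = w)
    (h2 : h.coeff 2 = w * (starRingEnd ℂ) (h.coeff 1))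
    (hpos : ∀ N, ∃ n, N ≤ n ∧ 0 ≤ (PowerSeries.coeff n F).re) :
    (w = 1 → -1 ≤ (h.coeff 1).re) ∧ (w = -1 → -3 ≤ (h.coeff 1).re) ∧
      (w.re ≠ -1 → (h.coeff 1).im = 0 → -1 < w.re → -1 ≤ (h.coeff 1).re) := by
  have hre := congrArg sre hF
  rw [sre_one_sub_pow, sre_coe] at hre
  have hev : eval 1 (pre h) = 1 + (h.coeff 1).re + (h.coeff 2).re + (h.coeff 3).re := by
    have h4 : (pre h).natDegree < 4 := by
      rw [Nat.lt_succ_iff, natDegree_le_iff_coeff_eq_zero]
      intro n hn
      rw [pre_coeff, coeff_eq_zero_of_natDegree_lt (by omega)]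
      rfl
    rw [eval_eq_sum_range' h4]
    simp only [Finset.sum_range_succ, Finset.sum_range_zero, pre_coeff, h0]
    simp
  have hneg : ∀ (m : ℕ) (p : ℝ[X]), (1 - PowerSeries.X) ^ (m + 1) * sre F = (p : PowerSeries ℝ) →
      0 ≤ eval 1 p := by
    intro m p h4
    by_contra hlt
    rw [not_le] at hlt
    obtain ⟨c, hc, N, hN⟩ := coeff_neg h4 hlt
    obtain ⟨n, hn, h5⟩ := hpos N
    have h6 := hN n hn
    rw [sre, PowerSeries.coeff_mk] at h6
    linarith
  have hge : 0 ≤ eval 1 (pre h) := by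
    obtain ⟨m, rfl⟩ : ∃ m, d = m + 1 := ⟨d - 1, by omega⟩
    exact hneg m _ hre
  refine ⟨?_, ?_, ?_⟩
  · intro hw
    rw [hev, h2, h3, hw] at hge
    simp at hge
    linarith
  · intro hw
    have h4 : pre h = (1 - X) * (1 + C (1 + (h.coeff 1).re) * X + X ^ 2) := by
      have h5 : ((1 - X) * (1 + C (1 + (h.coeff 1).re) * X + X ^ 2) : ℝ[X])
          = C 1 + C ((h.coeff 1).re) * X ^ 1 + C (-(h.coeff 1).re) * X ^ 2 + C (-1) * X ^ 3 := by
        simp only [map_add, map_neg, C_1]
        ring
      ext i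
      rw [h5, pre_coeff]
      simp only [coeff_add, coeff_C_mul, coeff_X_pow, coeff_C]
      rcases lt_or_ge i 4 with hi | hi
      · interval_cases i
        · simp [h0]
        · simp
        · simp [h2, hw]
        · simp [h3, hw]
      · rw [coeff_eq_zero_of_natDegree_lt (by omega), if_neg (by omega), if_neg (by omega),
          if_neg (by omega), if_neg (by omega)]
        simp
    obtain ⟨m, rfl⟩ : ∃ m, d = m + 2 := ⟨d - 2, by omega⟩
    have h5 := hneg m (1 + C (1 + (h.coeff 1).re) * X + X ^ 2) (by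
      have hne : ((1 : PowerSeries ℝ) - PowerSeries.X) ≠ 0 := by
        intro h6
        have h7 := congrArg (PowerSeries.coeff 0) h6
        simp at h7
      apply mul_left_cancel₀ hne
      rw [← mul_assoc, ← pow_succ', hre, h4]
      push_cast
      ring)
    simp at h5
    linarith
  · intro hw him hw1
    rw [hev, h2, h3] at hge
    simp [him] at hge
    nlinarith

/-- the coefficient in degree one -/
theorem coeff_one_sub_pow {k : Type*} [CommRing k] (F : PowerSeries k) (d : ℕ) :
    PowerSeries.coeff 0 ((1 - PowerSeries.X) ^ d * F) = PowerSeries.coeff 0 F ∧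
    PowerSeries.coeff 1 ((1 - PowerSeries.X) ^ d * F)
      = PowerSeries.coeff 1 F - d * PowerSeries.coeff 0 F := by
  induction d with
  | zero => simp
  | succ d ih =>
    have h1 : ((1 - PowerSeries.X) ^ (d + 1) * F : PowerSeries k)
        = (1 - PowerSeries.X) ^ d * F - PowerSeries.X * ((1 - PowerSeries.X) ^ d * F) := by ring
    rw [h1, map_sub, map_sub, PowerSeries.coeff_zero_X_mul, sub_zero]
    refine ⟨ih.1, ?_⟩
    have h2 : PowerSeries.coeff 1 (PowerSeries.X * ((1 - PowerSeries.X) ^ d * F))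
        = PowerSeries.coeff 0 ((1 - PowerSeries.X) ^ d * F) := PowerSeries.coeff_succ_X_mul 0 _
    rw [h2, ih.1, ih.2]
    push_cast
    ring

end Pool.Agent.P8H35.TR
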