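import Mathlib

/-!
# The bigrading given by a graded algebra with an automorphism of finite order
-/

set_option autoImplicit false
set_option linter.unusedSectionVars false

namespace Pool.Agent.P8H35.TR

open DirectSum

variable {k S : Type*} [Field k] [CommRing S] [Algebra k S] (𝒜 : ℕ → Submodule k S)
  [GradedAlgebra 𝒜] (σ : S →ₐ[k] S) {m : ℕ} [NeZero m] (χ : AddChar (ZMod m) k)

/-- the eigenspaces in the graded pieces -/
def eig (i : ℕ × ZMod m) : Submodule k S where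
  carrier := {x | x ∈ 𝒜 i.1 ∧ σ x = χ i.2 • x}
  add_mem' := by
    rintro x y ⟨h1, h2⟩ ⟨h3, h4⟩
    exact ⟨Submodule.add_mem _ h1 h3, by rw [map_add, h2, h4, smul_add]⟩
  zero_mem' := ⟨Submodule.zero_mem _, by rw [map_zero, smul_zero]⟩
  smul_mem' := by
    rintro c x ⟨h1, h2⟩
    exact ⟨Submodule.smul_mem _ c h1, by rw [map_smul, h2, smul_comm]⟩

/-- the projection to an eigenspace -/
noncomputable def pr (a : ZMod m) : S →ₗ[k] S :=
  (m : k)⁻¹ • ∑ i ∈ Finset.range m, ((χ a)⁻¹) ^ i • ((σ : S →ₐ[k] S).toLinearMap ^ i)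

theorem pr_apply (a : ZMod m) (x : S) :
    pr σ χ a x = (m : k)⁻¹ • ∑ i ∈ Finset.range m, ((χ a)⁻¹) ^ i • (σ.toLinearMap ^ i) x := by
  simp [pr, LinearMap.sum_apply]

theorem chi_ne (a : ZMod m) : χ a ≠ 0 := by
  intro h
  have h1 : χ a * χ (-a) = 1 := by
    rw [← AddChar.map_add_eq_mul, add_neg_cancel, AddChar.map_zero_eq_one]
  rw [h, zero_mul] at h1
  exact zero_ne_one h1

theorem chi_pow (a : ZMod m) : χ a ^ m = 1 := by
  rw [← AddChar.map_nsmul_eq_pow]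
  simp

theorem geom_zero {r : k} (h : r ^ m = 1) (h1 : r ≠ 1) : ∑ i ∈ Finset.range m, r ^ i = 0 := by
  have h2 := mul_geom_sum r m
  rw [h, sub_self, mul_eq_zero, sub_eq_zero] at h2
  exact h2.resolve_left h1

variable {σ χ}

theorem pow_mem (hσ : ∀ n, ∀ x ∈ 𝒜 n, σ x ∈ 𝒜 n) {n : ℕ} {x : S} (hx : x ∈ 𝒜 n) (i : ℕ) :
    (σ.toLinearMap ^ i) x ∈ 𝒜 n := by
  induction i with
  | zero => exact hx
  | succ i ih =>
    rw [pow_succ']
    exact hσ n _ ih

theorem pr_mem (hσ : ∀ n, ∀ x ∈ 𝒜 n, σ x ∈ 𝒜 n) (hm : σ.toLinearMap ^ m = 1) (a : ZMod m)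
    {n : ℕ} {x : S} (hx : x ∈ 𝒜 n) : pr σ χ a x ∈ eig 𝒜 σ χ (n, a) := by
  constructor
  · rw [pr_apply]
    apply Submodule.smul_mem
    apply Submodule.sum_mem
    intro i _
    exact Submodule.smul_mem _ _ (pow_mem 𝒜 hσ hx i)
  · rw [pr_apply, map_smul, smul_comm]
    congr 1
    rw [map_sum]
    have h1 : ∀ i, σ (((χ a)⁻¹) ^ i • (σ.toLinearMap ^ i) x)
        = χ a • (((χ a)⁻¹) ^ (i + 1) • (σ.toLinearMap ^ (i + 1)) x) := by
      intro i
      rw [map_smul, smul_smul, pow_succ (χ a)⁻¹, mul_comm ((χ a)⁻¹ ^ i), ← mul_assoc,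
        mul_inv_cancel₀ (chi_ne χ a), one_mul, pow_succ']
      rfl
    rw [Finset.sum_congr rfl (fun i _ => h1 i), ← Finset.smul_sum]
    congr 1
    have h2 := Finset.sum_range_succ' (fun i => ((χ a)⁻¹) ^ i • (σ.toLinearMap ^ i) x) m
    have h3 := Finset.sum_range_succ (fun i => ((χ a)⁻¹) ^ i • (σ.toLinearMap ^ i) x) m
    rw [h3] at h2
    have h4 : ((χ a)⁻¹) ^ m • (σ.toLinearMap ^ m) x = ((χ a)⁻¹) ^ 0 • (σ.toLinearMap ^ 0) x := by
      rw [hm, inv_pow, chi_pow, inv_one, pow_zero, pow_zero]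
    rw [h4] at h2
    exact (add_right_cancel h2).symm

theorem sum_pr (hm0 : (m : k) ≠ 0) (hχ : Function.Injective χ) (x : S) :
    ∑ a, pr σ χ a x = x := by
  simp only [pr_apply]
  rw [← Finset.smul_sum, Finset.sum_comm]
  have h1 : ∀ i ∈ Finset.range m, ∑ a : ZMod m, ((χ a)⁻¹) ^ i • (σ.toLinearMap ^ i) x
      = if i = 0 then (m : k) • x else 0 := by
    intro i hi
    rw [← Finset.sum_smul]
    split_ifs with h
    · subst h
      simp
    · have h2 : ∑ a : ZMod m, ((χ a)⁻¹) ^ i = 0 := by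
        have h3 : ∑ a : ZMod m, ((χ a)⁻¹) ^ i
            = ((χ 1)⁻¹) ^ i * ∑ a : ZMod m, ((χ a)⁻¹) ^ i := by
          rw [Finset.mul_sum, ← Equiv.sum_comp (Equiv.addLeft (1 : ZMod m))]
          apply Finset.sum_congr rfl
          intro a _
          rw [Equiv.coe_addLeft, AddChar.map_add_eq_mul, mul_inv, mul_pow]
        have h4 : ((χ 1)⁻¹) ^ i ≠ 1 := by
          intro h5
          rw [inv_pow, inv_eq_one, ← AddChar.map_nsmul_eq_pow,
            ← AddChar.map_zero_eq_one (M := k) (A := ZMod m) χ] at h5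
          have h6 := hχ h5
          rw [nsmul_eq_mul, mul_one, ZMod.natCast_eq_zero_iff] at h6
          exact h (Nat.eq_zero_of_dvd_of_lt h6 (Finset.mem_range.1 hi))
        have h5 : (1 - ((χ 1)⁻¹) ^ i) * ∑ a : ZMod m, ((χ a)⁻¹) ^ i = 0 := by
          rw [sub_mul, one_mul, ← h3, sub_self]
        exact (mul_eq_zero.1 h5).resolve_left (fun h6 => h4 (sub_eq_zero.1 h6).symm)
      rw [h2, zero_smul]
  rw [Finset.sum_congr rfl h1, Finset.sum_ite_eq' (Finset.range m) 0 (fun _ => (m : k) • x),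
    if_pos (Finset.mem_range.2 (Nat.pos_of_ne_zero (NeZero.ne m))), smul_smul,
    inv_mul_cancel₀ hm0, one_smul]

theorem pr_of_mem (hm0 : (m : k) ≠ 0) (hχ : Function.Injective χ) (a : ZMod m)
    {i : ℕ × ZMod m} {x : S} (hx : x ∈ eig 𝒜 σ χ i) :
    pr σ χ a x = if a = i.2 then x else 0 := by
  have h1 : ∀ l, (σ.toLinearMap ^ l) x = (χ i.2) ^ l • x := by
    intro l
    induction l with
    | zero => simp
    | succ l ih =>
      rw [pow_succ']
      change σ ((σ.toLinearMap ^ l) x) = _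
      rw [ih, map_smul, hx.2, smul_smul, pow_succ]
  rw [pr_apply]
  have h2 : ∀ l ∈ Finset.range m, ((χ a)⁻¹) ^ l • (σ.toLinearMap ^ l) x
      = ((χ a)⁻¹ * χ i.2) ^ l • x := by
    intro l _
    rw [h1, smul_smul, mul_pow]
  rw [Finset.sum_congr rfl h2, ← Finset.sum_smul]
  split_ifs with h
  · rw [h, inv_mul_cancel₀ (chi_ne χ i.2)]
    simp only [one_pow, Finset.sum_const, Finset.card_range, nsmul_eq_mul, mul_one]
    rw [smul_smul, inv_mul_cancel₀ hm0, one_smul]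
  · rw [geom_zero (by rw [mul_pow, inv_pow, chi_pow, chi_pow]; simp) (by
      intro h3
      apply h
      apply hχ
      rwa [inv_mul_eq_one₀ (chi_ne χ a)] at h3), zero_smul, smul_zero]

/-- the projection from a graded piece to an eigenspace -/
noncomputable def prn (hσ : ∀ n, ∀ x ∈ 𝒜 n, σ x ∈ 𝒜 n) (hm : σ.toLinearMap ^ m = 1) (n : ℕ)
    (a : ZMod m) : 𝒜 n →ₗ[k] eig 𝒜 σ χ (n, a) :=
  LinearMap.codRestrict _ ((pr σ χ a).comp (𝒜 n).subtype) fun x => pr_mem 𝒜 hσ hm a x.2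

/-- the decomposition map -/
noncomputable def dec (hσ : ∀ n, ∀ x ∈ 𝒜 n, σ x ∈ 𝒜 n) (hm : σ.toLinearMap ^ m = 1) :
    S →ₗ[k] ⨁ i, eig 𝒜 σ χ i :=
  (DirectSum.toModule k ℕ _ (fun n => ∑ a : ZMod m,
    (DirectSum.lof k (ℕ × ZMod m) (fun i => eig 𝒜 σ χ i) (n, a)).comp
      (prn 𝒜 hσ hm n a))).comp (decomposeLinearEquiv 𝒜).toLinearMap

theorem dec_apply (hσ : ∀ n, ∀ x ∈ 𝒜 n, σ x ∈ 𝒜 n) (hm : σ.toLinearMap ^ m = 1) {n : ℕ} {x : S}
    (hx : x ∈ 𝒜 n) : dec 𝒜 hσ hm x = ∑ a : ZMod m,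
      DirectSum.lof k (ℕ × ZMod m) (fun i => eig 𝒜 σ χ i) (n, a) ⟨pr σ χ a x,
        pr_mem 𝒜 hσ hm a hx⟩ := by
  have h1 : decomposeLinearEquiv 𝒜 x = DirectSum.lof k ℕ (fun i => 𝒜 i) n ⟨x, hx⟩ := by
    rw [decomposeLinearEquiv_apply, decompose_of_mem 𝒜 hx]
    rfl
  rw [dec, LinearMap.comp_apply]
  change DirectSum.toModule k ℕ _ _ (decomposeLinearEquiv 𝒜 x) = _
  rw [h1, DirectSum.toModule_lof, LinearMap.sum_apply]
  rfl

/-- the bigrading -/
noncomputable def bigrading (hσ : ∀ n, ∀ x ∈ 𝒜 n, σ x ∈ 𝒜 n) (hm : σ.toLinearMap ^ m = 1)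
    (hm0 : (m : k) ≠ 0) (hχ : Function.Injective χ) : GradedAlgebra (eig 𝒜 σ χ) where
  one_mem := ⟨SetLike.one_mem_graded 𝒜, by
    rw [map_one, Prod.snd_zero, AddChar.map_zero_eq_one, one_smul]⟩
  mul_mem := by
    rintro i j x y ⟨h1, h2⟩ ⟨h3, h4⟩
    refine ⟨SetLike.mul_mem_graded h1 h3, ?_⟩
    rw [map_mul, h2, h4, Prod.snd_add, AddChar.map_add_eq_mul, smul_mul_smul_comm]
  toDecomposition := DirectSum.Decomposition.ofLinearMap _ (dec 𝒜 hσ hm)
    (by
      apply LinearMap.ext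
      intro x
      induction x using DirectSum.Decomposition.inductionOn 𝒜 with
      | zero => simp
      | @homogeneous n x =>
        rw [LinearMap.comp_apply, dec_apply 𝒜 hσ hm x.2, map_sum]
        simp only [DirectSum.coeLinearMap_lof]
        exact sum_pr hm0 hχ _
      | add a b ha hb => rw [map_add, map_add, ha, hb])
    (by
      apply DirectSum.linearMap_ext
      rintro ⟨n, a⟩
      apply LinearMap.ext
      intro x
      rw [LinearMap.comp_apply, LinearMap.comp_apply, DirectSum.coeLinearMap_lof,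
        dec_apply 𝒜 hσ hm x.2.1, LinearMap.comp_apply, LinearMap.id_apply,
        Finset.sum_eq_single a]
      · congr 1
        apply Subtype.ext
        change pr σ χ a (x : S) = x
        rw [pr_of_mem 𝒜 hm0 hχ a x.2, if_pos rfl]
      · intro b _ hb
        have h1 : (⟨pr σ χ b (x : S), pr_mem 𝒜 hσ hm b x.2.1⟩ : eig 𝒜 σ χ (n, b)) = 0 := by
          apply Subtype.ext
          change pr σ χ b (x : S) = 0
          rw [pr_of_mem 𝒜 hm0 hχ b x.2, if_neg hb]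
        rw [h1, map_zero]
      · intro h; exact absurd (Finset.mem_univ _) h)

end Pool.Agent.P8H35.TR
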