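import Pool.Agent.P8H35.TR.Main
import Pool.Agent.P8H35.TR.Decomp

/-!
# The trace of an automorphism of finite order on the part of degree one
-/

set_option autoImplicit false
set_option linter.unusedSectionVars false

namespace Pool.Agent.P8H35.TR

open DirectSum

variable {k S : Type*} [Field k] [CommRing S] [Algebra k S] {𝒜 : ℕ → Submodule k S}
  [GradedAlgebra 𝒜]

/-- the restriction of an endomorphism to a graded piece -/
def resPiece (f : S →ₗ[k] S) (hf : ∀ n, ∀ x ∈ 𝒜 n, f x ∈ 𝒜 n) (n : ℕ) : 𝒜 n →ₗ[k] 𝒜 n :=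
  LinearMap.restrict f (hf n)

/-- the trace is the sum of the eigenvalues -/
theorem trace_piece {m : ℕ} [NeZero m] {χ : AddChar (ZMod m) k} (σ : S →ₐ[k] S)
    (hσ : ∀ n, ∀ x ∈ 𝒜 n, σ x ∈ 𝒜 n) (hm : σ.toLinearMap ^ m = 1)
    (hm0 : (m : k) ≠ 0) (hχ : Function.Injective χ) (n : ℕ) [FiniteDimensional k (𝒜 n)] :
    LinearMap.trace k (𝒜 n) (resPiece σ.toLinearMap hσ n)
      = ∑ b, χ b * (Module.finrank k (eig 𝒜 σ χ (n, b)) : k) := by
  classical
  set f := resPiece σ.toLinearMap hσ n with hf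
  let W : ZMod m → Submodule k (𝒜 n) := fun b => Module.End.eigenspace f (χ b)
  have hW : ∀ b, ∀ x : 𝒜 n, x ∈ W b ↔ (x : S) ∈ eig 𝒜 σ χ (n, b) := by
    intro b x
    change x ∈ Module.End.eigenspace f (χ b) ↔ _
    rw [Module.End.mem_eigenspace_iff]
    constructor
    · intro h
      exact ⟨x.2, congrArg Subtype.val h⟩
    · rintro ⟨-, h⟩
      exact Subtype.ext h
  have hind : iSupIndep W := (Module.End.eigenspaces_iSupIndep f).comp hχ
  have htop : ⨆ b, W b = ⊤ := by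
    rw [eq_top_iff]
    intro x _
    have h1 : x = ∑ b, (⟨pr σ χ b x, (pr_mem 𝒜 hσ hm b x.2).1⟩ : 𝒜 n) := by
      apply Subtype.ext
      rw [AddSubmonoidClass.coe_finsetSum]
      exact (sum_pr hm0 hχ _).symm
    rw [h1]
    apply Submodule.sum_mem
    intro b _
    exact Submodule.mem_iSup_of_mem b ((hW b _).2 (pr_mem 𝒜 hσ hm b x.2))
  have hint : DirectSum.IsInternal W :=
    DirectSum.isInternal_submodule_of_iSupIndep_of_iSup_eq_top hind htop
  have hmaps : ∀ b, Set.MapsTo f (W b) (W b) := by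
    intro b x hx
    have h1 : f x = χ b • x := Module.End.mem_eigenspace_iff.1 hx
    rw [h1]
    exact Submodule.smul_mem _ _ hx
  rw [LinearMap.trace_eq_sum_trace_restrict hint hmaps]
  apply Finset.sum_congr rfl
  intro b _
  have h1 : f.restrict (hmaps b) = χ b • LinearMap.id := by
    apply LinearMap.ext
    intro x
    apply Subtype.ext
    exact Module.End.mem_eigenspace_iff.1 x.2
  rw [h1, map_smul, smul_eq_mul]
  have hfree : Module.Free k (W b) := Module.Free.of_divisionRing k (W b)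
  have hff : Module.Finite k (W b) := inferInstance
  have h3 : LinearMap.trace k (W b) LinearMap.id = (Module.finrank k (W b) : k) :=
    LinearMap.trace_id k (W b)
  refine congrArg (χ b * ·) (h3.trans ?_)
  congr 1
  have h2 : eig 𝒜 σ χ (n, b) = (W b).map (𝒜 n).subtype := by
    ext x
    rw [Submodule.mem_map]
    constructor
    · intro hx
      exact ⟨⟨x, hx.1⟩, (hW b _).2 hx, rfl⟩
    · rintro ⟨y, hy, rfl⟩
      exact (hW b y).1 hy
  rw [h2]
  exact LinearEquiv.finrank_eq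
    (Submodule.equivMapOfInjective (𝒜 n).subtype (Submodule.injective_subtype _) (W b))

/-- The trace on the part of degree one of a Gorenstein ring. -/
theorem trace_aut [IsAlgClosed k] [CharZero k] [IsNoetherianRing S]
    (h0 : ∀ x ∈ 𝒜 0, ∃ c : k, x = algebraMap k S c) (σ : S ≃ₐ[k] S)
    (hσ : ∀ n, ∀ x ∈ 𝒜 n, σ x ∈ 𝒜 n) (hfin : IsOfFinOrder σ)
    {D : ℕ} (θ : Fin D → S) (e : Fin D → ℕ) (he : ∀ i, 0 < e i) (hθ : ∀ i, θ i ∈ 𝒜 (e i))
    (hθσ : ∀ i, σ (θ i) = θ i)
    (hreg : RingTheory.Sequence.IsWeaklyRegular S (List.ofFn θ)) {N : ℕ}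
    (hN : ∀ n, N ≤ n → ∀ x ∈ 𝒜 n, x ∈ Ideal.span (Set.range θ)) {s : ℕ} {z : S}
    (hz : z ∈ 𝒜 s) (hzJ : z ∉ Ideal.span (Set.range θ))
    (hsoc : ∀ y : S, (∀ m, 0 < m → ∀ x ∈ 𝒜 m, x * y ∈ Ideal.span (Set.range θ)) →
      ∃ c : k, y - c • z ∈ Ideal.span (Set.range θ))
    (d : kˣ →₀ ℕ)
    (hd : ∀ τ : kˣ, ∃ t : Finset S, t.card ≤ d τ ∧ (∀ x ∈ t, ∃ n, 0 < n ∧ x ∈ 𝒜 n) ∧
      ∃ N, ∀ n, N ≤ n → ∀ x ∈ 𝒜 n,
        x ∈ Ideal.span {y | ∃ n, ∃ s ∈ 𝒜 n, y = σ s - (τ : k) ^ n • s} ⊔ Ideal.span (t : Set S))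
    (htors : ∀ τ ∈ d.support, IsOfFinOrder τ) :
    ∃ h : Polynomial k, h.natDegree + ∑ i, e i = s + ∑ τ ∈ d.support, d τ ∧
      IsOfFinOrder h.leadingCoeff ∧ h.coeff 0 = 1 ∧
      LinearMap.trace k (𝒜 1) (resPiece (σ : S →ₐ[k] S).toLinearMap hσ 1)
        = (∑ τ ∈ d.support, (d τ : k) * τ) + h.coeff 1 := by
  classical
  -- the bigrading
  set m : ℕ := orderOf σ with hm
  have hmpos : 0 < m := hfin.orderOf_pos
  have : NeZero m := ⟨hmpos.ne'⟩
  have : NeZero (m : k) := ⟨by exact_mod_cast hmpos.ne'⟩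
  obtain ⟨ζ, hζ⟩ := HasEnoughRootsOfUnity.exists_primitiveRoot k m
  set χ : AddChar (ZMod m) k := AddChar.zmodChar m hζ.pow_eq_one with hχdef
  have hχ : Function.Injective χ := by
    intro i j hij
    rw [hχdef, AddChar.zmodChar_apply, AddChar.zmodChar_apply] at hij
    have h3 := hζ.pow_inj (ZMod.val_lt i) (ZMod.val_lt j) hij
    exact ZMod.val_injective m h3
  set f : S →ₐ[k] S := (σ : S →ₐ[k] S) with hf
  have hfσ : ∀ n, ∀ x ∈ 𝒜 n, f x ∈ 𝒜 n := hσ
  have hfm : f.toLinearMap ^ m = 1 := by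
    have h3 : ∀ i : ℕ, ∀ x, (f.toLinearMap ^ i) x = (σ ^ i) x := by
      intro i
      induction i with
      | zero => intro x; rfl
      | succ i ih =>
        intro x
        rw [pow_succ', pow_succ']
        change f ((f.toLinearMap ^ i) x) = σ ((σ ^ i) x)
        rw [ih]
        rfl
    apply LinearMap.ext
    intro x
    rw [h3, hm, pow_orderOf_eq_one]
    rfl
  have hm0 : (m : k) ≠ 0 := NeZero.ne _
  let _ := bigrading 𝒜 hfσ hfm hm0 hχ
  have hsum : ∀ x : S, ∑ b, pr f χ b x = x := sum_pr hm0 hχ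
  have hprm : ∀ (b : ZMod m) {n : ℕ} {x : S}, x ∈ 𝒜 n → pr f χ b x ∈ eig 𝒜 f χ (n, b) :=
    fun b {n x} hx => pr_mem 𝒜 hfσ hfm b hx
  have hcomp : ∀ {n : ℕ} {x : S}, x ∈ 𝒜 n → ∀ j : ℕ × ZMod m, j.1 ≠ n →
      decompose (eig 𝒜 f χ) x j = 0 := by
    intro n x hx j hj
    apply Subtype.ext
    rw [← hsum x, comp_finset_sum, Submodule.coe_zero]
    apply Finset.sum_eq_zero
    intro b _
    exact decompose_of_mem_ne _ (hprm b hx) (fun h => hj (by rw [← h]))
  have hscal : ∀ x ∈ eig 𝒜 f χ 0, ∃ c : k, x = algebraMap k S c := fun x hx => h0 x hx.1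
  have hmem : ∀ {J : Ideal S} {n : ℕ} {y : S},
      (∀ b, ∀ x ∈ eig 𝒜 f χ (n, b), x * y ∈ J) → ∀ x ∈ 𝒜 n, x * y ∈ J := by
    intro J n y h x hx
    rw [← hsum x, Finset.sum_mul]
    exact J.sum_mem fun b _ => h b _ (hprm b hx)
  obtain ⟨b, h, hdeg, hlead, hc0, htr⟩ := trace_one (ℬ := eig 𝒜 f χ) χ hχ hscal
    (by
      rintro c hc x ⟨hx1, hx2⟩
      obtain ⟨r, rfl⟩ := h0 x hx1
      have h3 : f (algebraMap k S r) = algebraMap k S r := f.commutes r
      rw [h3] at hx2
      have h4 : (χ c - 1) • (algebraMap k S r) = 0 := by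
        rw [sub_smul, one_smul, ← hx2, sub_self]
      rcases smul_eq_zero.1 h4 with h5 | h5
      · exfalso
        apply hc
        apply hχ
        rw [AddChar.map_zero_eq_one]
        exact sub_eq_zero.1 h5
      · exact h5)
    θ e he
    (fun i => ⟨hθ i, by
      change σ (θ i) = χ 0 • θ i
      rw [AddChar.map_zero_eq_one, one_smul, hθσ i]⟩)
    hreg (N := N) (fun n hn _ x hx => hN n hn x hx.1) (s := s) (z := z) (hcomp hz) hzJ
    (fun y hy => hsoc y (fun l hl => hmem (hy l hl))) d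
    (by
      intro τ
      obtain ⟨t, htc, ht, N', hN'⟩ := hd τ
      refine ⟨t, htc, ?_, N', ?_⟩
      · intro x hx
        obtain ⟨n, hn, hxn⟩ := ht x hx
        exact ⟨n, hn, hcomp hxn⟩
      · intro n hn c x hx
        have h3 : Ideal.span {y | ∃ n, ∃ s ∈ 𝒜 n, y = σ s - (τ : k) ^ n • s}
            ≤ fixI (eig 𝒜 f χ) χ (τ : k) := by
          rw [Ideal.span_le]
          rintro y ⟨l, w, hw, rfl⟩
          have h4 : σ w - (τ : k) ^ l • w = ∑ c, (χ c - (τ : k) ^ l) • pr f χ c w := by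
            have h5 : σ w = ∑ c, χ c • pr f χ c w := by
              conv_lhs => rw [← hsum w]
              rw [map_sum]
              exact Finset.sum_congr rfl fun c _ => (hprm c hw).2
            rw [h5]
            conv_lhs => rw [← hsum w]
            rw [Finset.smul_sum]
            simp only [hsum w]
            rw [← Finset.sum_sub_distrib]
            exact Finset.sum_congr rfl fun c _ => (sub_smul _ _ _).symm
          rw [h4]
          apply Ideal.sum_mem
          intro c _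
          by_cases hc : χ c = (τ : k) ^ l
          · rw [hc, sub_self, zero_smul]
            exact Ideal.zero_mem _
          · rw [Algebra.smul_def]
            exact Ideal.mul_mem_left _ _ (Ideal.subset_span ⟨l, c, hprm c hw, hc⟩)
        exact sup_le_sup_right h3 _ (hN' n hn x hx.1))
  have hfd : FiniteDimensional k (𝒜 1) := finite_pieces (ℬ := 𝒜) h0 1
  refine ⟨h, hdeg, ?_, hc0, ?_⟩
  · have hneg : IsOfFinOrder (-1 : k) := isOfFinOrder_iff_pow_eq_one.2 ⟨2, two_pos, by norm_num⟩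
    have h5 : h.leadingCoeff = χ b * (∏ τ ∈ d.support, (-(τ : k)) ^ d τ) * (-1) ^ D := by
      rw [← hlead, mul_assoc, ← mul_pow]
      norm_num
    have hprod : ∀ t : Finset kˣ, (∀ τ ∈ t, IsOfFinOrder τ) →
        IsOfFinOrder (∏ τ ∈ t, (-(τ : k)) ^ d τ) := by
      intro t
      induction t using Finset.induction_on with
      | empty => intro _; rw [Finset.prod_empty]; exact IsOfFinOrder.one
      | insert τ t hτ ih =>
        intro ht
        rw [Finset.prod_insert hτ]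
        apply IsOfFinOrder.mul
        · apply IsOfFinOrder.pow
          have h6 : -(τ : k) = (-1) * τ := by ring
          rw [h6]
          apply hneg.mul
          obtain ⟨l, hl, hl1⟩ := isOfFinOrder_iff_pow_eq_one.1 (ht τ (Finset.mem_insert_self _ _))
          apply isOfFinOrder_iff_pow_eq_one.2 ⟨l, hl, _⟩
          rw [← Units.val_pow_eq_pow_val, hl1, Units.val_one]
        · exact ih (fun τ' h' => ht τ' (Finset.mem_insert_of_mem h'))
    rw [h5]
    refine ((?_ : IsOfFinOrder (χ b)).mul (hprod _ htors)).mul hneg.pow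
    exact isOfFinOrder_iff_pow_eq_one.2 ⟨m, hmpos, chi_pow χ b⟩
  · rw [← htr]
    exact trace_piece f hfσ hfm hm0 hχ 1

end Pool.Agent.P8H35.TR
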