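import Mathlib

/-!
# Traces of a diagonalizable action on the pieces of `S / I`

`S` is graded by `ℕ × A`, `A` a finite abelian group with a character `χ`. `hs I` is the power series
whose `n`-th coefficient is the trace of the automorphism given by `χ` on the part of degree `n` of
`S / I`.
-/

set_option autoImplicit false
set_option linter.unusedSectionVars false

namespace Pool.Agent.P8H35.TR

open DirectSum

section General

variable {k S ι : Type*} [Field k] [CommRing S] [Algebra k S] [DecidableEq ι]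
  [AddCommMonoid ι] [IsLeftCancelAdd ι] (ℬ : ι → Submodule k S) [GradedAlgebra ℬ]

/-- the colon ideal `I : x` -/
def cl (I : Ideal S) (x : S) : Ideal S := Submodule.comap (LinearMap.mul S S x) I

theorem mem_cl {I : Ideal S} {x y : S} : y ∈ cl I x ↔ x * y ∈ I := Iff.rfl

/-- the dimension of a piece of `S / I` -/
noncomputable def dd (I : Ideal S) (i : ι) : ℤ :=
  (Module.finrank k (ℬ i) : ℤ) - Module.finrank k (ℬ i ⊓ I.restrictScalars k : Submodule k S)

variable {ℬ}

theorem comp_self {i : ι} {x : S} (hx : x ∈ ℬ i) : ((decompose ℬ x i : ℬ i) : S) = x :=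
  decompose_of_mem_same ℬ hx

theorem comp_mul {i j : ι} {x : S} (hx : x ∈ ℬ i) (s : S) :
    ((decompose ℬ (x * s) (i + j) : ℬ (i + j)) : S) = x * ((decompose ℬ s j : ℬ j) : S) := by
  have : AddLeftCancelMonoid ι := { (inferInstance : AddCommMonoid ι) with
    add_left_cancel := fun a b c h => add_left_cancel h }
  induction s using DirectSum.Decomposition.inductionOn ℬ with
  | zero => simp
  | @homogeneous l s =>
    have hxs : x * (s : S) ∈ ℬ (i + l) := SetLike.mul_mem_graded hx s.2
    by_cases h : l = j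
    · subst h
      rw [comp_self hxs, comp_self s.2]
    · rw [decompose_of_mem_ne ℬ hxs (fun h' => h (add_left_cancel h')),
        decompose_of_mem_ne ℬ s.2 h, mul_zero]
  | add a b ha hb =>
    rw [mul_add, decompose_add, decompose_add, DirectSum.add_apply, DirectSum.add_apply,
      Submodule.coe_add, Submodule.coe_add, ha, hb, mul_add]

theorem comp_mul_zero {i t : ι} {x : S} (hx : x ∈ ℬ i) (ht : ∀ j, i + j ≠ t) (s : S) :
    ((decompose ℬ (x * s) t : ℬ t) : S) = 0 := by
  induction s using DirectSum.Decomposition.inductionOn ℬ with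
  | zero => simp
  | @homogeneous l s => exact decompose_of_mem_ne ℬ (SetLike.mul_mem_graded hx s.2) (ht l)
  | add a b ha hb =>
    rw [mul_add, decompose_add, DirectSum.add_apply, Submodule.coe_add, ha, hb, add_zero]

theorem cl_homogeneous {I : Ideal S} (hI : I.IsHomogeneous ℬ) {i : ι} {x : S} (hx : x ∈ ℬ i) :
    (cl I x).IsHomogeneous ℬ := by
  intro j y hy
  rw [mem_cl] at hy ⊢
  rw [← comp_mul hx]
  exact hI _ hy

theorem span_homogeneous {i : ι} {x : S} (hx : x ∈ ℬ i) :
    (Ideal.span {x}).IsHomogeneous ℬ := by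
  apply Ideal.homogeneous_span
  rintro _ rfl
  exact ⟨i, hx⟩

/-- an element is in a homogeneous ideal if its components are -/
theorem mem_of_comp {I : Ideal S} {s : S} (h : ∀ i, ((decompose ℬ s i : ℬ i) : S) ∈ I) : s ∈ I := by
  classical
  rw [← sum_support_decompose ℬ s]
  exact I.sum_mem fun i _ => h i

/-- rank and nullity on a subspace -/
theorem finrank_map_add {V W : Type*} [AddCommGroup V] [Module k V] [AddCommGroup W] [Module k W]
    (f : V →ₗ[k] W) (U : Submodule k V) [FiniteDimensional k U] :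
    Module.finrank k (U.map f) + Module.finrank k (U ⊓ LinearMap.ker f : Submodule k V)
      = Module.finrank k U := by
  have h1 := LinearMap.finrank_range_add_finrank_ker (f.domRestrict U)
  rw [← h1]
  congr 1
  · have h2 : LinearMap.range (f.domRestrict U) = U.map f := by
      rw [LinearMap.domRestrict, LinearMap.range_comp, Submodule.range_subtype]
    rw [h2]
  · have h2 : (LinearMap.ker (f.domRestrict U)).map U.subtype = U ⊓ LinearMap.ker f := by
      rw [LinearMap.domRestrict, LinearMap.ker_comp, Submodule.map_comap_subtype]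
    rw [← h2]
    exact LinearEquiv.finrank_eq
      (Submodule.equivMapOfInjective U.subtype (Submodule.injective_subtype U) _).symm

/-- adding a homogeneous element -/
theorem dd_sup (hfin : ∀ i, FiniteDimensional k (ℬ i)) {I : Ideal S} (hI : I.IsHomogeneous ℬ)
    {i : ι} {x : S} (hx : x ∈ ℬ i) (j : ι) :
    dd ℬ (I ⊔ Ideal.span {x}) (i + j) = dd ℬ I (i + j) - dd ℬ (cl I x) j := by
  have := hfin
  set A : Submodule k S := ℬ (i + j) ⊓ I.restrictScalars k with hA
  set f : S →ₗ[k] S := LinearMap.mulLeft k x with hf'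
  set C : Submodule k S := ℬ j ⊓ (cl I x).restrictScalars k with hC
  set B : Submodule k S := (ℬ j).map f with hB
  have hAfin : FiniteDimensional k A := Submodule.finiteDimensional_of_le inf_le_left
  have hCfin : FiniteDimensional k C := Submodule.finiteDimensional_of_le inf_le_left
  have h1 : ℬ (i + j) ⊓ (I ⊔ Ideal.span {x}).restrictScalars k = A ⊔ B := by
    apply le_antisymm
    · rintro w ⟨hw1, hw2⟩
      rw [SetLike.mem_coe, Submodule.restrictScalars_mem, Submodule.mem_sup] at hw2
      obtain ⟨y, hy, z, hz, rfl⟩ := hw2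
      obtain ⟨s, rfl⟩ := Ideal.mem_span_singleton'.1 hz
      rw [← comp_self (ℬ := ℬ) hw1, decompose_add, DirectSum.add_apply, Submodule.coe_add,
        mul_comm s x, comp_mul hx]
      apply Submodule.add_mem_sup
      · exact ⟨(decompose ℬ y (i + j)).2, hI _ hy⟩
      · exact ⟨_, (decompose ℬ s j).2, rfl⟩
    · apply sup_le
      · exact inf_le_inf le_rfl (fun y hy => Submodule.mem_sup_left hy)
      · rintro _ ⟨y, hy, rfl⟩
        refine ⟨SetLike.mul_mem_graded hx hy, ?_⟩
        exact Submodule.mem_sup_right (Ideal.mul_mem_right _ _ (Ideal.mem_span_singleton_self x))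
  have h2 : A ⊓ B = C.map f := by
    apply le_antisymm
    · rintro _ ⟨⟨-, hw⟩, ⟨y, hy, rfl⟩⟩
      exact ⟨y, ⟨hy, hw⟩, rfl⟩
    · rintro _ ⟨y, ⟨hy1, hy2⟩, rfl⟩
      exact ⟨⟨SetLike.mul_mem_graded hx hy1, hy2⟩, ⟨y, hy1, rfl⟩⟩
  have h3 := Submodule.finrank_sup_add_finrank_inf_eq A B
  have h4 := finrank_map_add f (ℬ j)
  have h5 := finrank_map_add f C
  have h6 : C ⊓ LinearMap.ker f = ℬ j ⊓ LinearMap.ker f := by
    apply le_antisymm
    · exact inf_le_inf inf_le_left le_rfl
    · rintro y ⟨hy1, hy2⟩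
      refine ⟨⟨hy1, ?_⟩, hy2⟩
      have h7 : x * y = 0 := hy2
      change x * y ∈ I
      rw [h7]
      exact zero_mem _
  rw [h6] at h5
  rw [h2] at h3
  unfold dd
  rw [h1]
  push_cast [← h3, ← h4, ← h5]
  have h3' : (Module.finrank k (A ⊔ B : Submodule k S) : ℤ) + Module.finrank k (C.map f)
      = Module.finrank k A + Module.finrank k B := by exact_mod_cast h3
  linarith

theorem dd_sup_of_ne {I : Ideal S} (hI : I.IsHomogeneous ℬ)
    {i : ι} {x : S} (hx : x ∈ ℬ i) {t : ι} (ht : ∀ j, i + j ≠ t) :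
    dd ℬ (I ⊔ Ideal.span {x}) t = dd ℬ I t := by
  have h1 : ℬ t ⊓ (I ⊔ Ideal.span {x}).restrictScalars k = ℬ t ⊓ I.restrictScalars k := by
    apply le_antisymm
    · rintro w ⟨hw1, hw2⟩
      rw [SetLike.mem_coe, Submodule.restrictScalars_mem, Submodule.mem_sup] at hw2
      obtain ⟨y, hy, z, hz, rfl⟩ := hw2
      obtain ⟨s, rfl⟩ := Ideal.mem_span_singleton'.1 hz
      refine ⟨hw1, ?_⟩
      have h2 := comp_self (ℬ := ℬ) hw1
      rw [decompose_add, DirectSum.add_apply, Submodule.coe_add, mul_comm s x,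
        comp_mul_zero hx ht, add_zero, mul_comm x s] at h2
      rw [← h2]
      exact hI _ hy
    · exact inf_le_inf le_rfl (fun y hy => Submodule.mem_sup_left hy)
  unfold dd
  rw [h1]

theorem dd_eq_zero {I : Ideal S} {i : ι} (h : ∀ x ∈ ℬ i, x ∈ I) : dd ℬ I i = 0 := by
  unfold dd
  rw [show ℬ i ⊓ I.restrictScalars k = ℬ i from inf_eq_left.2 h, sub_self]

theorem dd_bot (i : ι) : dd ℬ (⊥ : Ideal S) i = Module.finrank k (ℬ i) := by
  unfold dd
  have h1 : ℬ i ⊓ (⊥ : Ideal S).restrictScalars k = ⊥ := by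
    rw [Submodule.restrictScalars_bot, inf_bot_eq]
  rw [h1]
  simp

theorem comp_finset_sum {κ : Type*} (s : Finset κ) (f : κ → S) (i : ι) :
    ((decompose ℬ (∑ l ∈ s, f l) i : ℬ i) : S) = ∑ l ∈ s, ((decompose ℬ (f l) i : ℬ i) : S) := by
  classical
  induction s using Finset.induction_on with
  | empty => simp
  | insert l s hl ih =>
    rw [Finset.sum_insert hl, Finset.sum_insert hl, decompose_add, DirectSum.add_apply,
      Submodule.coe_add, ih]

/-- the graded pieces of a Noetherian graded algebra are finite-dimensional -/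
theorem finite_pieces [IsNoetherianRing S] (h0 : ∀ x ∈ ℬ 0, ∃ c : k, x = algebraMap k S c)
    (n : ι) : FiniteDimensional k (ℬ n) := by
  have h1 : (Ideal.span ((ℬ n : Submodule k S) : Set S)).FG := IsNoetherian.noetherian _
  obtain ⟨T, hT, hspan⟩ := (Submodule.fg_span_iff_fg_span_finset_subset _).1 h1
  have h2 : ℬ n ≤ Submodule.span k (T : Set S) := by
    intro x hx
    have h3 : x ∈ Submodule.span S (T : Set S) := by
      rw [← hspan]
      exact Submodule.subset_span hx
    obtain ⟨f, hf, hfx⟩ := Submodule.mem_span_finset.1 h3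
    have h4 : x = ∑ t ∈ T, ((decompose ℬ (f t) 0 : ℬ 0) : S) * t := by
      have h5 := comp_self hx
      rw [← hfx, comp_finset_sum] at h5
      rw [← hfx, ← h5]
      apply Finset.sum_congr rfl
      intro t ht
      have h6 : t ∈ ℬ n := hT ht
      rw [smul_eq_mul, mul_comm (f t) t]
      have h7 := comp_mul (j := 0) h6 (f t)
      rw [add_zero] at h7
      rw [h7, mul_comm]
    rw [h4]
    apply Submodule.sum_mem
    intro t ht
    obtain ⟨c, hc⟩ := h0 _ (decompose ℬ (f t) 0).2
    rw [hc, ← Algebra.smul_def]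
    exact Submodule.smul_mem _ _ (Submodule.subset_span ht)
  have h3 : FiniteDimensional k (Submodule.span k (T : Set S)) := by
    exact FiniteDimensional.span_finset k T
  exact Submodule.finiteDimensional_of_le h2

end General

section Series

variable {k S A : Type*} [Field k] [CommRing S] [Algebra k S] [AddCommGroup A] [Fintype A]
  [DecidableEq A] (ℬ : ℕ × A → Submodule k S) [GradedAlgebra ℬ] (χ : AddChar A k)

/-- the series of the traces on `S / I` -/
noncomputable def hs (I : Ideal S) : PowerSeries k :=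
  PowerSeries.mk fun n => ∑ a, χ a * (dd ℬ I (n, a) : k)

variable {ℬ}

theorem hs_sup (hfin : ∀ i, FiniteDimensional k (ℬ i)) {I : Ideal S} (hI : I.IsHomogeneous ℬ)
    {m : ℕ} {b : A} {x : S} (hx : x ∈ ℬ (m, b)) :
    hs ℬ χ (I ⊔ Ideal.span {x})
      = hs ℬ χ I - PowerSeries.C (χ b) * PowerSeries.X ^ m * hs ℬ χ (cl I x) := by
  ext n
  rw [map_sub, mul_assoc, PowerSeries.coeff_C_mul, PowerSeries.coeff_X_pow_mul']
  simp only [hs, PowerSeries.coeff_mk]
  split_ifs with h
  · obtain ⟨d, rfl⟩ := Nat.exists_eq_add_of_le h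
    rw [Nat.add_sub_cancel_left, ← Equiv.sum_comp (Equiv.addLeft b), 
      ← Equiv.sum_comp (Equiv.addLeft b) (fun a => χ a * (dd ℬ I (m + d, a) : k)),
      Finset.mul_sum, ← Finset.sum_sub_distrib]
    apply Finset.sum_congr rfl
    intro a _
    rw [Equiv.coe_addLeft]
    have h1 := dd_sup hfin hI hx (d, a)
    rw [Prod.mk_add_mk] at h1
    rw [h1, AddChar.map_add_eq_mul]
    push_cast
    ring
  · rw [mul_zero, sub_zero]
    apply Finset.sum_congr rfl
    intro a _
    rw [dd_sup_of_ne hI hx]
    rintro ⟨j1, j2⟩ h1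
    rw [Prod.mk_add_mk, Prod.mk.injEq] at h1
    omega

end Series

end Pool.Agent.P8H35.TR
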