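import Pool.Agent.P8H35.TR.Basic

/-!
# The order of the poles of the trace series

The order of the pole of `hs I` at `τ⁻¹` is at most the dimension of the set of the points on which
the automorphism acts as the scalar `τ` (in degree `n` as `τ ^ n`).
-/

set_option autoImplicit false
set_option linter.unusedSectionVars false

namespace Pool.Agent.P8H35.TR

open DirectSum

/-- `F` is a rational function with a pole of order at most `d` at `τ⁻¹` -/
def GoodAt {k : Type*} [Field k] (τ : k) (d : ℕ) (F : PowerSeries k) : Prop :=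
  ∃ q p : Polynomial k, Polynomial.eval τ⁻¹ q ≠ 0 ∧
    (q : PowerSeries k) * ((1 - Polynomial.C τ * Polynomial.X : Polynomial k) : PowerSeries k) ^ d * F
      = (p : PowerSeries k)

section

variable {k : Type*} [Field k]

theorem GoodAt.of_poly {τ : k} {d : ℕ} (p : Polynomial k) : GoodAt τ d (p : PowerSeries k) := by
  refine ⟨1, (1 - Polynomial.C τ * Polynomial.X) ^ d * p, by simp, ?_⟩
  rw [Polynomial.coe_one, one_mul, Polynomial.coe_mul, Polynomial.coe_pow]

theorem GoodAt.add {τ : k} {d : ℕ} {F G : PowerSeries k} (hF : GoodAt τ d F) (hG : GoodAt τ d G) :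
    GoodAt τ d (F + G) := by
  obtain ⟨q, p, hq, h⟩ := hF
  obtain ⟨q', p', hq', h'⟩ := hG
  refine ⟨q * q', q' * p + q * p', ?_, ?_⟩
  · rw [Polynomial.eval_mul]
    exact mul_ne_zero hq hq'
  · rw [Polynomial.coe_mul, Polynomial.coe_add, Polynomial.coe_mul, Polynomial.coe_mul, ← h, ← h']
    ring

theorem GoodAt.coe_mul {τ : k} {d : ℕ} {F : PowerSeries k} (hF : GoodAt τ d F)
    (r : Polynomial k) : GoodAt τ d ((r : PowerSeries k) * F) := by
  obtain ⟨q, p, hq, h⟩ := hF
  refine ⟨q, r * p, hq, ?_⟩
  rw [Polynomial.coe_mul, ← h]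
  ring

theorem GoodAt.of_mul {τ : k} {d : ℕ} {F : PowerSeries k} {r : Polynomial k}
    (hr : Polynomial.eval τ⁻¹ r ≠ 0) (hF : GoodAt τ d ((r : PowerSeries k) * F)) :
    GoodAt τ d F := by
  obtain ⟨q, p, hq, h⟩ := hF
  refine ⟨q * r, p, ?_, ?_⟩
  · rw [Polynomial.eval_mul]
    exact mul_ne_zero hq hr
  · rw [Polynomial.coe_mul, ← h]
    ring

theorem GoodAt.succ_of_mul {τ : k} {d : ℕ} {F : PowerSeries k}
    (hF : GoodAt τ d (((1 - Polynomial.C τ * Polynomial.X : Polynomial k) : PowerSeries k) * F)) :
    GoodAt τ (d + 1) F := by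
  obtain ⟨q, p, hq, h⟩ := hF
  refine ⟨q, p, hq, ?_⟩
  rw [← h]
  ring

theorem GoodAt.mono {τ : k} {d e : ℕ} (hde : d ≤ e) {F : PowerSeries k} (hF : GoodAt τ d F) :
    GoodAt τ e F := by
  obtain ⟨q, p, hq, h⟩ := hF
  obtain ⟨c, rfl⟩ := Nat.exists_eq_add_of_le hde
  refine ⟨q, (1 - Polynomial.C τ * Polynomial.X) ^ c * p, hq, ?_⟩
  rw [Polynomial.coe_mul, Polynomial.coe_pow, ← h]
  ring

end

variable {k S A : Type*} [Field k] [CommRing S] [Algebra k S] [AddCommGroup A] [Fintype A]
  [DecidableEq A] (ℬ : ℕ × A → Submodule k S) [GradedAlgebra ℬ] (χ : AddChar A k)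

/-- the ideal of the points on which the automorphism acts as `τ` -/
def fixI (τ : k) : Ideal S := Ideal.span {s | ∃ n a, s ∈ ℬ (n, a) ∧ χ a ≠ τ ^ n}

variable {ℬ}

theorem coe_factor (c : k) (n : ℕ) :
    ((1 - Polynomial.C c * Polynomial.X ^ n : Polynomial k) : PowerSeries k)
      = 1 - PowerSeries.C c * PowerSeries.X ^ n := by
  rw [Polynomial.coe_sub, Polynomial.coe_mul, Polynomial.coe_pow, Polynomial.coe_one,
    Polynomial.coe_C, Polynomial.coe_X]

/-- if `I` contains all forms of large degree, the trace series is a polynomial -/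
theorem hs_poly {I : Ideal S} {N : ℕ} (hN : ∀ n, N ≤ n → ∀ a, ∀ x ∈ ℬ (n, a), x ∈ I) :
    hs ℬ χ I = (((hs ℬ χ I).trunc N : Polynomial k) : PowerSeries k) := by
  ext n
  rw [Polynomial.coeff_coe, PowerSeries.coeff_trunc]
  split_ifs with h
  · rfl
  · rw [hs, PowerSeries.coeff_mk]
    apply Finset.sum_eq_zero
    intro a _
    rw [dd_eq_zero (hN n (not_lt.1 h) a)]
    simp

theorem hs_mul_of_cl (hfin : ∀ i, FiniteDimensional k (ℬ i)) {I : Ideal S}
    (hI : I.IsHomogeneous ℬ) {n : ℕ} {a : A} {x : S} (hx : x ∈ ℬ (n, a)) (hcl : cl I x = I) :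
    hs ℬ χ (I ⊔ Ideal.span {x})
      = ((1 - Polynomial.C (χ a) * Polynomial.X ^ n : Polynomial k) : PowerSeries k)
        * hs ℬ χ I := by
  rw [hs_sup χ hfin hI hx, hcl, coe_factor]
  ring

/-- the order of the pole at `τ⁻¹` is at most the number of forms which cut the set of the points on
which the automorphism acts as `τ` down to the origin -/
theorem goodAt_hs [IsNoetherianRing S] [CharZero k] (hfin : ∀ i, FiniteDimensional k (ℬ i))
    {τ : k} (hτ : τ ≠ 0) (hχ : Function.Injective χ) (I : Ideal S) (hI : I.IsHomogeneous ℬ) :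
    ∀ (t : Finset S), (∀ x ∈ t, ∃ n, 0 < n ∧ ∀ j : ℕ × A, j.1 ≠ n → decompose ℬ x j = 0) →
      ∀ N, (∀ n, N ≤ n → ∀ a, ∀ x ∈ ℬ (n, a), x ∈ I ⊔ fixI ℬ χ τ ⊔ Ideal.span (t : Set S)) →
      GoodAt τ t.card (hs ℬ χ I) := by
  classical
  induction I using WellFoundedGT.induction with
  | _ I ih =>
    intro t ht N hN
    have hup : ∀ J : Ideal S, I ≤ J → ∀ n, N ≤ n → ∀ a, ∀ x ∈ ℬ (n, a),
        x ∈ J ⊔ fixI ℬ χ τ ⊔ Ideal.span (t : Set S) := fun J hJ n hn a x hx =>
      sup_le_sup_right (sup_le_sup_right hJ _) _ (hN n hn a x hx)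
    by_cases hprime : ∃ (i : ℕ × A) (x : S) (j : ℕ × A) (y : S),
        x ∈ ℬ i ∧ y ∈ ℬ j ∧ x ∉ I ∧ y ∉ I ∧ x * y ∈ I
    · obtain ⟨⟨m, b⟩, x, j, y, hx, hy, hxI, hyI, hxy⟩ := hprime
      have h1 := hs_sup χ hfin hI hx
      have h2 : hs ℬ χ I = hs ℬ χ (I ⊔ Ideal.span {x})
          + ((Polynomial.C (χ b) * Polynomial.X ^ m : Polynomial k) : PowerSeries k)
            * hs ℬ χ (cl I x) := by
        rw [h1, Polynomial.coe_mul, Polynomial.coe_pow, Polynomial.coe_C, Polynomial.coe_X]
        ring
      rw [h2]
      apply GoodAt.add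
      · apply ih _ _ (hI.sup (span_homogeneous hx)) t ht N (hup _ le_sup_left)
        exact lt_of_le_of_ne le_sup_left (fun h => hxI (by
          rw [h]; exact Submodule.mem_sup_right (Ideal.mem_span_singleton_self x)))
      · apply GoodAt.coe_mul
        have h4 : I ≤ cl I x := fun z hz => mem_cl.2 (I.mul_mem_left _ hz)
        apply ih _ _ (cl_homogeneous hI hx) t ht N (hup _ h4)
        exact lt_of_le_of_ne h4 (fun h => hyI (by rw [h, mem_cl]; exact hxy))
    · push Not at hprime
      have hcl : ∀ (i : ℕ × A) (x : S), x ∈ ℬ i → x ∉ I → cl I x = I := by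
        intro i x hx hxI
        apply le_antisymm
        · intro y hy
          apply mem_of_comp (ℬ := ℬ)
          intro j
          by_contra hj
          have h1 : x * ((decompose ℬ y j : ℬ j) : S) ∈ I := by
            rw [← comp_mul hx]
            exact hI _ hy
          exact hprime i x j _ hx (decompose ℬ y j).2 hxI hj h1
        · exact fun z hz => mem_cl.2 (I.mul_mem_left _ hz)
      by_cases hA : ∃ (n : ℕ) (a : A) (s : S), s ∈ ℬ (n, a) ∧ χ a ≠ τ ^ n ∧ s ∉ I
      · obtain ⟨n, a, s, hs1, hne, hsI⟩ := hA
        have h1 := hs_mul_of_cl χ hfin hI hs1 (hcl _ s hs1 hsI)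
        apply GoodAt.of_mul (r := 1 - Polynomial.C (χ a) * Polynomial.X ^ n)
        · simp only [Polynomial.eval_sub, Polynomial.eval_one, Polynomial.eval_mul,
            Polynomial.eval_C, Polynomial.eval_pow, Polynomial.eval_X]
          intro h2
          apply hne
          rw [inv_pow] at h2
          have h3 : τ ^ n ≠ 0 := pow_ne_zero _ hτ
          field_simp at h2
          rw [mul_zero, sub_eq_zero] at h2
          exact h2.symm
        · rw [← h1]
          apply ih _ _ (hI.sup (span_homogeneous hs1)) t ht N (hup _ le_sup_left)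
          exact lt_of_le_of_ne le_sup_left (fun h => hsI (by
            rw [h]; exact Submodule.mem_sup_right (Ideal.mem_span_singleton_self s)))
      · push Not at hA
        have hfix : fixI ℬ χ τ ≤ I := by
          rw [fixI, Ideal.span_le]
          rintro s ⟨n, a, hs1, hne⟩
          exact hA n a s hs1 hne
        by_cases hall : ∀ x ∈ t, x ∈ I
        · have h1 : ∀ n, N ≤ n → ∀ a, ∀ x ∈ ℬ (n, a), x ∈ I := by
            intro n hn a x hx
            have h2 := hN n hn a x hx
            have h3 : I ⊔ fixI ℬ χ τ ⊔ Ideal.span (t : Set S) ≤ I := by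
              refine sup_le (sup_le le_rfl hfix) ?_
              rw [Ideal.span_le]
              exact hall
            exact h3 h2
          rw [hs_poly χ h1]
          exact GoodAt.of_poly _
        · push Not at hall
          obtain ⟨x, hxt, hxI⟩ := hall
          obtain ⟨n, hn, hx⟩ := ht x hxt
          -- a component outside `I`
          have h1 : ∃ a : A, ((decompose ℬ x (n, a) : ℬ (n, a)) : S) ∉ I := by
            by_contra hcon
            push Not at hcon
            apply hxI
            apply mem_of_comp (ℬ := ℬ)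
            rintro ⟨m, a⟩
            by_cases hm : m = n
            · subst hm; exact hcon a
            · rw [hx (m, a) hm]
              exact I.zero_mem
          obtain ⟨a, ha⟩ := h1
          set y : S := ((decompose ℬ x (n, a) : ℬ (n, a)) : S) with hy
          have hyB : y ∈ ℬ (n, a) := (decompose ℬ x (n, a)).2
          have hχa : χ a = τ ^ n := by
            by_contra hne
            exact ha (hA n a y hyB hne)
          have hxy : x - y ∈ I := by
            apply mem_of_comp (ℬ := ℬ)
            rintro ⟨m, b⟩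
            rw [decompose_sub, DirectSum.sub_apply, Submodule.coe_sub]
            by_cases hm : m = n
            · subst hm
              by_cases hb : b = a
              · subst hb
                rw [comp_self hyB, hy, sub_self]
                exact I.zero_mem
              · rw [decompose_of_mem_ne ℬ hyB (fun h => hb (Prod.mk.inj h).2.symm), sub_zero]
                apply hA m b _ (decompose ℬ x (m, b)).2
                intro h
                exact hb (hχ (h.trans hχa.symm))
            · rw [decompose_of_mem_ne ℬ hyB (fun h => hm (Prod.mk.inj h).1.symm), sub_zero,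
                hx (m, b) hm]
              exact I.zero_mem
          have hlt : I < I ⊔ Ideal.span {y} :=
            lt_of_le_of_ne le_sup_left (fun h => ha (by
              rw [h]; exact Submodule.mem_sup_right (Ideal.mem_span_singleton_self y)))
          have h2 := ih _ hlt (hI.sup (span_homogeneous hyB)) (t.erase x)
            (fun z hz => ht z (Finset.mem_of_mem_erase hz)) N (by
              intro n' hn' a' z hz
              have h3 : I ⊔ fixI ℬ χ τ ⊔ Ideal.span (t : Set S) ≤
                  I ⊔ Ideal.span {y} ⊔ fixI ℬ χ τ ⊔ Ideal.span ((t.erase x : Finset S) : Set S) := by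
                refine sup_le (sup_le (le_sup_left.trans (le_sup_left.trans le_sup_left))
                  (le_sup_right.trans le_sup_left)) ?_
                rw [Ideal.span_le]
                intro w hw
                by_cases hwx : w = x
                · have h4 : x ∈ I ⊔ Ideal.span {y} := by
                    have h5 : x = (x - y) + y := by ring
                    rw [h5]
                    exact Submodule.add_mem_sup hxy (Ideal.mem_span_singleton_self y)
                  rw [hwx]
                  exact (le_sup_left.trans le_sup_left : I ⊔ Ideal.span {y} ≤ _) h4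
                · exact (le_sup_right : Ideal.span ((t.erase x : Finset S) : Set S) ≤ _)
                    (Ideal.subset_span (Finset.mem_coe.2 (Finset.mem_erase.2 ⟨hwx, hw⟩)))
              exact h3 (hN n' hn' a' z hz))
          rw [hs_mul_of_cl χ hfin hI hyB (hcl _ y hyB ha)] at h2
          have hcard : t.card = (t.erase x).card + 1 := (Finset.card_erase_add_one hxt).symm
          rw [hcard]
          apply GoodAt.succ_of_mul
          have hfac : (1 - Polynomial.C (χ a) * Polynomial.X ^ n : Polynomial k)
              = (∑ i ∈ Finset.range n, (Polynomial.C τ * Polynomial.X) ^ i)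
                * (1 - Polynomial.C τ * Polynomial.X) := by
            rw [geom_sum_mul_neg, mul_pow, ← Polynomial.C_pow, hχa]
          rw [hfac, Polynomial.coe_mul, mul_assoc] at h2
          apply GoodAt.of_mul _ h2
          rw [Polynomial.eval_finsetSum]
          have h6 : ∀ i ∈ Finset.range n,
              Polynomial.eval τ⁻¹ ((Polynomial.C τ * Polynomial.X) ^ i : Polynomial k) = 1 := by
            intro i _
            rw [Polynomial.eval_pow, Polynomial.eval_mul, Polynomial.eval_C, Polynomial.eval_X,
              mul_inv_cancel₀ hτ, one_pow]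
          rw [Finset.sum_congr rfl h6, Finset.sum_const, Finset.card_range, nsmul_eq_mul, mul_one]
          exact_mod_cast hn.ne'

end Pool.Agent.P8H35.TR
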