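import Pool.Agent.P8H35.TR.Poly

/-!
# The trace on the part of degree one of a Gorenstein ring
-/

set_option autoImplicit false
set_option linter.unusedSectionVars false

namespace Pool.Agent.P8H35.TR

open DirectSum

variable {k S A : Type*} [Field k] [CommRing S] [Algebra k S] [AddCommGroup A] [Fintype A]
  [DecidableEq A] {ℬ : ℕ × A → Submodule k S} [GradedAlgebra ℬ] (χ : AddChar A k)

/-- the trace series modulo a regular sequence of invariants -/
theorem hs_regular (hfin : ∀ i, FiniteDimensional k (ℬ i)) : ∀ (D : ℕ) (θ : Fin D → S)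
    (e : Fin D → ℕ), (∀ i, θ i ∈ ℬ (e i, 0)) →
    RingTheory.Sequence.IsWeaklyRegular S (List.ofFn θ) →
    (Ideal.ofList (List.ofFn θ)).IsHomogeneous ℬ ∧
    hs ℬ χ (Ideal.ofList (List.ofFn θ)) = ((mprod e : Polynomial k) : PowerSeries k)
      * hs ℬ χ ⊥ := by
  intro D
  induction D with
  | zero =>
    intro θ e _ _
    simp only [List.ofFn_zero, Ideal.ofList_nil, mprod, Finset.univ_eq_empty, Finset.prod_empty,
      Polynomial.coe_one, one_mul, and_true]
    exact Ideal.IsHomogeneous.bot ℬ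
  | succ D ih =>
    intro θ e hθ hreg
    rw [List.ofFn_succ', List.concat_eq_append] at hreg ⊢
    rw [RingTheory.Sequence.isWeaklyRegular_append_iff,
      RingTheory.Sequence.isWeaklyRegular_singleton_iff,
      isSMulRegular_quotient_iff_mem_of_smul_mem] at hreg
    obtain ⟨hhom, hhs⟩ := ih (fun i => θ i.castSucc) (fun i => e i.castSucc)
      (fun i => hθ _) hreg.1
    rw [Ideal.ofList_append, Ideal.ofList_singleton]
    refine ⟨hhom.sup (span_homogeneous (hθ (Fin.last D))), ?_⟩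
    have h1 : cl (Ideal.ofList (List.ofFn fun i => θ (Fin.castSucc i))) (θ (Fin.last D))
        = Ideal.ofList (List.ofFn fun i => θ (Fin.castSucc i)) := by
      ext y
      rw [mem_cl]
      refine ⟨fun h => ?_, fun h => Ideal.mul_mem_left _ _ h⟩
      have h2 := hreg.2 y
      rw [smul_eq_mul, smul_eq_mul, Ideal.mul_top] at h2
      exact h2 h
    rw [hs_mul_of_cl χ hfin hhom (hθ (Fin.last D)) h1, hhs, mprod, mprod,
      Fin.prod_univ_castSucc, AddChar.map_zero_eq_one, Polynomial.C_1, one_mul,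
      Polynomial.coe_mul]
    ring

theorem ofList_ofFn {D : ℕ} (θ : Fin D → S) :
    Ideal.ofList (List.ofFn θ) = Ideal.span (Set.range θ) := by
  unfold Ideal.ofList
  congr 1
  ext x
  simp [List.mem_ofFn]

/-- dimension one: a piece spanned by one element modulo the ideal -/
theorem dd_eq_one (hfin : ∀ i, FiniteDimensional k (ℬ i)) {J : Ideal S} {i : ℕ × A} {z : S}
    (hz : z ∈ ℬ i) (hzJ : z ∉ J) (h : ∀ y ∈ ℬ i, ∃ c : k, y - c • z ∈ J) : dd ℬ J i = 1 := by
  have := hfin
  set B : Submodule k S := ℬ i ⊓ J.restrictScalars k with hB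
  have hBfin : FiniteDimensional k B := Submodule.finiteDimensional_of_le inf_le_left
  have h1 : ℬ i = B ⊔ Submodule.span k {z} := by
    apply le_antisymm
    · intro y hy
      obtain ⟨c, hc⟩ := h y hy
      have h2 : y = (y - c • z) + c • z := by ring
      rw [h2]
      apply Submodule.add_mem_sup
      · exact ⟨Submodule.sub_mem _ hy (Submodule.smul_mem _ c hz), hc⟩
      · exact Submodule.smul_mem _ c (Submodule.mem_span_singleton_self z)
    · refine sup_le inf_le_left ?_
      rw [Submodule.span_singleton_le_iff_mem]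
      exact hz
  have h2 : B ⊓ Submodule.span k {z} = ⊥ := by
    rw [eq_bot_iff]
    rintro y ⟨⟨-, hyJ⟩, hyz⟩
    obtain ⟨c, rfl⟩ := Submodule.mem_span_singleton.1 hyz
    by_cases hc : c = 0
    · rw [hc, zero_smul]; exact Submodule.zero_mem _
    · exfalso
      apply hzJ
      have h3 : c⁻¹ • (c • z) ∈ J := by
        rw [Algebra.smul_def c⁻¹]
        exact J.mul_mem_left _ hyJ
      rwa [smul_smul, inv_mul_cancel₀ hc, one_smul] at h3
  have h3 := Submodule.finrank_sup_add_finrank_inf_eq B (Submodule.span k {z})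
  have h4 : Module.finrank k (Submodule.span k {z}) = 1 := by
    apply finrank_span_singleton
    rintro rfl
    exact hzJ J.zero_mem
  rw [← h1, h2, h4] at h3
  rw [finrank_bot] at h3
  have h5 : dd ℬ J i = (Module.finrank k (ℬ i) : ℤ) - Module.finrank k B := rfl
  rw [h5]
  omega

/-- The trace of the automorphism on the part of degree one. -/
theorem trace_one [IsNoetherianRing S] [CharZero k] [IsAlgClosed k]
    (hχ : Function.Injective χ)
    (h0 : ∀ x ∈ ℬ 0, ∃ c : k, x = algebraMap k S c)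
    (h0' : ∀ a ≠ 0, ∀ x ∈ ℬ (0, a), x = 0)
    {D : ℕ} (θ : Fin D → S) (e : Fin D → ℕ) (he : ∀ i, 0 < e i) (hθ : ∀ i, θ i ∈ ℬ (e i, 0))
    (hreg : RingTheory.Sequence.IsWeaklyRegular S (List.ofFn θ)) {N : ℕ}
    (hN : ∀ n, N ≤ n → ∀ a, ∀ x ∈ ℬ (n, a), x ∈ Ideal.span (Set.range θ)) {s : ℕ} {z : S}
    (hz : ∀ j : ℕ × A, j.1 ≠ s → decompose ℬ z j = 0)
    (hzJ : z ∉ Ideal.span (Set.range θ))
    (hsoc : ∀ y : S, (∀ m, 0 < m → ∀ a, ∀ x ∈ ℬ (m, a), x * y ∈ Ideal.span (Set.range θ)) →
      ∃ c : k, y - c • z ∈ Ideal.span (Set.range θ))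
    (d : kˣ →₀ ℕ)
    (hd : ∀ τ : kˣ, ∃ t : Finset S, t.card ≤ d τ ∧
      (∀ x ∈ t, ∃ n, 0 < n ∧ ∀ j : ℕ × A, j.1 ≠ n → decompose ℬ x j = 0) ∧
      ∃ N, ∀ n, N ≤ n → ∀ a, ∀ x ∈ ℬ (n, a), x ∈ fixI ℬ χ (τ : k) ⊔ Ideal.span (t : Set S)) :
    ∃ (b : A) (h : Polynomial k), h.natDegree + ∑ i, e i = s + ∑ τ ∈ d.support, d τ ∧
      h.leadingCoeff * (-1) ^ D = χ b * ∏ τ ∈ d.support, (-(τ : k)) ^ d τ ∧ h.coeff 0 = 1 ∧
      ∑ a, χ a * (Module.finrank k (ℬ (1, a)) : k)
        = (∑ τ ∈ d.support, (d τ : k) * τ) + h.coeff 1 := by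
  classical
  have hfin : ∀ i, FiniteDimensional k (ℬ i) := finite_pieces h0
  obtain ⟨hhom, hhs⟩ := hs_regular χ hfin D θ e hθ hreg
  rw [ofList_ofFn] at hhom hhs
  set J : Ideal S := Ideal.span (Set.range θ) with hJ
  have hJtop : J ≠ ⊤ := fun h => hzJ (by rw [h]; trivial)
  -- large degrees
  have hlarge : ∀ c n, N ≤ n + c → s < n → ∀ a, ∀ x ∈ ℬ (n, a), x ∈ J := by
    intro c
    induction c with
    | zero => intro n hn _ a x hx; exact hN n hn a x hx
    | succ c ih =>
      intro n hn hsn a x hx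
      obtain ⟨r, hr⟩ := hsoc x (fun m hm b w hw => by
        have h1 : w * x ∈ ℬ ((m, b) + (n, a)) := SetLike.mul_mem_graded hw hx
        exact ih (m + n) (by omega) (by omega) (b + a) _ h1)
      have h2 := hhom (n, a) hr
      rw [decompose_sub, DirectSum.sub_apply, Submodule.coe_sub, comp_self hx,
        decompose_smul, DirectSum.smul_apply, Submodule.coe_smul,
        hz (n, a) (by simpa using hsn.ne'), Submodule.coe_zero, smul_zero, sub_zero] at h2
      exact h2
  have hlarge' : ∀ n, s < n → ∀ a, ∀ x ∈ ℬ (n, a), x ∈ J :=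
    fun n hn => hlarge N n (by omega) hn
  -- the socle
  obtain ⟨b, hb⟩ : ∃ b : A, ((decompose ℬ z (s, b) : ℬ (s, b)) : S) ∉ J := by
    by_contra hcon
    push Not at hcon
    apply hzJ
    apply mem_of_comp (ℬ := ℬ)
    rintro ⟨m, a⟩
    by_cases hm : m = s
    · subst hm; exact hcon a
    · rw [hz (m, a) hm]
      exact J.zero_mem
  set w : S := ((decompose ℬ z (s, b) : ℬ (s, b)) : S) with hw
  have hsocle : ∀ a, ∀ y ∈ ℬ (s, a), ∃ c : k, y - c • z ∈ J := by
    intro a y hy
    apply hsoc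
    intro m hm a' x hx
    have h1 : x * y ∈ ℬ ((m, a') + (s, a)) := SetLike.mul_mem_graded hx hy
    exact hlarge' (m + s) (by omega) _ _ h1
  have hdb : dd ℬ J (s, b) = 1 := by
    apply dd_eq_one hfin (decompose ℬ z (s, b)).2 hb
    intro y hy
    obtain ⟨c, hc⟩ := hsocle b y hy
    refine ⟨c, ?_⟩
    have h2 := hhom (s, b) hc
    rwa [decompose_sub, DirectSum.sub_apply, Submodule.coe_sub, comp_self hy,
      decompose_smul, DirectSum.smul_apply, Submodule.coe_smul] at h2
  have hda : ∀ a, a ≠ b → dd ℬ J (s, a) = 0 := by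
    intro a hab
    apply dd_eq_zero
    intro y hy
    obtain ⟨c, hc⟩ := hsocle a y hy
    have h2 := hhom (s, b) hc
    rw [decompose_sub, DirectSum.sub_apply, Submodule.coe_sub,
      decompose_of_mem_ne ℬ hy (fun h => hab (Prod.mk.inj h).2), zero_sub,
      decompose_smul, DirectSum.smul_apply, Submodule.coe_smul, neg_mem_iff] at h2
    by_cases hc0 : c = 0
    · rw [hc0, zero_smul, sub_zero] at hc
      exact hc
    · exfalso
      apply hb
      have h3 : c⁻¹ • (c • w) ∈ J := by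
        rw [Algebra.smul_def c⁻¹]
        exact J.mul_mem_left _ h2
      rwa [smul_smul, inv_mul_cancel₀ hc0, one_smul] at h3
  -- degree zero
  have hpiece : ∀ I : Ideal S, I ≠ ⊤ →
      PowerSeries.coeff 0 (hs ℬ χ I) = 1 := by
    intro I hI
    have h1 : dd ℬ I (0, 0) = 1 := by
      apply dd_eq_one hfin (z := 1) (SetLike.one_mem_graded ℬ)
        (fun h => hI ((Ideal.eq_top_iff_one _).2 h))
      intro y hy
      obtain ⟨c, rfl⟩ := h0 y hy
      refine ⟨c, ?_⟩
      rw [Algebra.smul_def, mul_one, sub_self]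
      exact I.zero_mem
    rw [hs, PowerSeries.coeff_mk, Finset.sum_eq_single (0 : A)]
    · rw [h1]
      simp
    · intro a _ ha
      rw [dd_eq_zero (fun x hx => by rw [h0' a ha x hx]; exact I.zero_mem)]
      simp
    · intro h; exact absurd (Finset.mem_univ _) h
  -- the polynomial `Q`
  set Q : Polynomial k := (hs ℬ χ J).trunc (s + 1) with hQ
  have hQc : ∀ n, Q.coeff n = PowerSeries.coeff n (hs ℬ χ J) := by
    intro n
    rw [hQ, PowerSeries.coeff_trunc]
    split_ifs with h
    · rfl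
    · rw [hs, PowerSeries.coeff_mk]
      symm
      apply Finset.sum_eq_zero
      intro a _
      rw [dd_eq_zero (hlarge' n (by omega) a)]
      simp
  have hQs : Q.coeff s = χ b := by
    rw [hQc, hs, PowerSeries.coeff_mk, Finset.sum_eq_single b]
    · rw [hdb]; simp
    · intro a _ ha
      rw [hda a ha]
      simp
    · intro h; exact absurd (Finset.mem_univ _) h
  have hχb : χ b ≠ 0 := by
    intro h
    have h1 : χ b * χ (-b) = 1 := by
      rw [← AddChar.map_add_eq_mul, add_neg_cancel, AddChar.map_zero_eq_one]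
    rw [h, zero_mul] at h1
    exact zero_ne_one h1
  have hQdeg : Q.natDegree = s := by
    apply le_antisymm
    · rw [Polynomial.natDegree_le_iff_coeff_eq_zero]
      intro n hn
      rw [hQc, hs, PowerSeries.coeff_mk]
      apply Finset.sum_eq_zero
      intro a _
      rw [dd_eq_zero (hlarge' n hn a)]
      simp
    · apply Polynomial.le_natDegree_of_ne_zero
      rw [hQs]
      exact hχb
  have hQlead : Q.leadingCoeff = χ b := by
    rw [Polynomial.leadingCoeff, hQdeg, hQs]
  have hQ0 : Q ≠ 0 := by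
    intro h
    rw [h, Polynomial.leadingCoeff_zero] at hQlead
    exact hχb hQlead.symm
  have hQcoe : ((mprod e : Polynomial k) : PowerSeries k) * hs ℬ χ ⊥ = (Q : PowerSeries k) := by
    rw [← hhs]
    ext n
    rw [Polynomial.coeff_coe, hQc]
  -- the poles
  have hgood : ∀ τ : kˣ, GoodAt (τ : k) (d τ) (hs ℬ χ (⊥ : Ideal S)) := by
    intro τ
    obtain ⟨t, htc, ht, N', hN'⟩ := hd τ
    apply GoodAt.mono htc
    apply goodAt_hs χ hfin τ.ne_zero hχ ⊥ (Ideal.IsHomogeneous.bot ℬ) t ht N'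
    intro n hn a x hx
    rw [bot_sup_eq]
    exact hN' n hn a x hx
  obtain ⟨h, hh1, hh2⟩ := exists_h he hQ0 hQcoe d hgood
  have htop : (⊥ : Ideal S) ≠ ⊤ := by
    intro h
    apply hJtop
    rw [eq_top_iff, ← h]
    exact bot_le
  obtain ⟨hc0, hc1⟩ := h_coeff hh1 (hpiece ⊥ htop)
  have hh0 : h ≠ 0 := by
    rintro rfl
    simp at hc0
  refine ⟨b, h, ?_, ?_, hc0, ?_⟩
  · have h1 := congrArg Polynomial.natDegree hh2
    rw [Polynomial.natDegree_mul (mprod_ne he) hh0, Polynomial.natDegree_mul (pprod_ne d) hQ0,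
      mprod_natDegree he, pprod_natDegree, hQdeg] at h1
    omega
  · have h1 := congrArg Polynomial.leadingCoeff hh2
    rw [Polynomial.leadingCoeff_mul, Polynomial.leadingCoeff_mul, mprod_lead he, pprod_lead,
      hQlead] at h1
    rw [mul_comm, h1, mul_comm]
  · rw [← hc1, hs, PowerSeries.coeff_mk]
    apply Finset.sum_congr rfl
    intro a _
    rw [dd_bot]
    simp

end Pool.Agent.P8H35.TR
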