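import Pool.Agent.P8H35.TR.Local

/-!
# Polynomials: the numerator of the trace series
-/

set_option autoImplicit false
set_option linter.unusedSectionVars false

namespace Pool.Agent.P8H35.TR

open Polynomial

variable {k : Type*} [Field k]

/-- `∏ (1 - X ^ e i)` -/
noncomputable def mprod {D : ℕ} (e : Fin D → ℕ) : k[X] := ∏ i, (1 - X ^ e i)

/-- `∏ (1 - τ X) ^ d τ` -/
noncomputable def pprod (d : kˣ →₀ ℕ) : k[X] := ∏ τ ∈ d.support, (1 - C (τ : k) * X) ^ d τ

theorem factor_natDegree (e : ℕ) : (1 - X ^ e : k[X]).natDegree = e := by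
  have h1 : (1 - X ^ e : k[X]) = -(X ^ e - C 1) := by simp
  rw [h1, natDegree_neg, natDegree_X_pow_sub_C]

theorem factor_ne {e : ℕ} (he : 0 < e) : (1 - X ^ e : k[X]) ≠ 0 := by
  intro h
  have h1 := factor_natDegree (k := k) e
  rw [h, natDegree_zero] at h1
  omega

theorem factor_lead {e : ℕ} (he : 0 < e) : (1 - X ^ e : k[X]).leadingCoeff = -1 := by
  have h1 : (1 - X ^ e : k[X]) = -(X ^ e - C 1) := by simp
  rw [h1, leadingCoeff_neg, leadingCoeff_X_pow_sub_C he]

theorem mprod_ne {D : ℕ} {e : Fin D → ℕ} (he : ∀ i, 0 < e i) : mprod (k := k) e ≠ 0 := by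
  rw [mprod, Finset.prod_ne_zero_iff]
  exact fun i _ => factor_ne (he i)

theorem mprod_natDegree {D : ℕ} {e : Fin D → ℕ} (he : ∀ i, 0 < e i) :
    (mprod (k := k) e).natDegree = ∑ i, e i := by
  rw [mprod, natDegree_prod _ _ (fun i _ => factor_ne (he i))]
  exact Finset.sum_congr rfl fun i _ => factor_natDegree (e i)

theorem mprod_lead {D : ℕ} {e : Fin D → ℕ} (he : ∀ i, 0 < e i) :
    (mprod (k := k) e).leadingCoeff = (-1) ^ D := by
  rw [mprod, leadingCoeff_prod, Finset.prod_congr rfl (fun i _ => factor_lead (he i)),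
    Finset.prod_const, Finset.card_univ, Fintype.card_fin]

theorem mprod_eval_zero {D : ℕ} {e : Fin D → ℕ} (he : ∀ i, 0 < e i) :
    eval 0 (mprod (k := k) e) = 1 := by
  rw [mprod, eval_prod]
  apply Finset.prod_eq_one
  intro i _
  rw [eval_sub, eval_one, eval_pow, eval_X, zero_pow (he i).ne', sub_zero]

theorem lin_natDegree {c : k} (hc : c ≠ 0) : (1 - C c * X : k[X]).natDegree = 1 := by
  have h1 : (1 - C c * X : k[X]) = C (-c) * X + C 1 := by simp; ring
  rw [h1, natDegree_linear (neg_ne_zero.2 hc)]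

theorem lin_ne {c : k} (hc : c ≠ 0) : (1 - C c * X : k[X]) ≠ 0 := by
  intro h
  have h1 := lin_natDegree hc
  rw [h, natDegree_zero] at h1
  omega

theorem lin_lead {c : k} (hc : c ≠ 0) : (1 - C c * X : k[X]).leadingCoeff = -c := by
  have h1 : (1 - C c * X : k[X]) = C (-c) * X + C 1 := by simp; ring
  rw [h1, leadingCoeff_linear (neg_ne_zero.2 hc)]

theorem pprod_ne (d : kˣ →₀ ℕ) : pprod d ≠ 0 := by
  rw [pprod, Finset.prod_ne_zero_iff]
  exact fun τ _ => pow_ne_zero _ (lin_ne τ.ne_zero)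

theorem pprod_natDegree (d : kˣ →₀ ℕ) : (pprod d).natDegree = ∑ τ ∈ d.support, d τ := by
  rw [pprod, natDegree_prod _ _ (fun τ _ => pow_ne_zero _ (lin_ne τ.ne_zero))]
  apply Finset.sum_congr rfl
  intro τ _
  rw [natDegree_pow, lin_natDegree τ.ne_zero, mul_one]

theorem pprod_lead (d : kˣ →₀ ℕ) :
    (pprod d).leadingCoeff = ∏ τ ∈ d.support, (-(τ : k)) ^ d τ := by
  rw [pprod, leadingCoeff_prod]
  apply Finset.prod_congr rfl
  intro τ _
  rw [leadingCoeff_pow, lin_lead τ.ne_zero]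

theorem pprod_coeff (d : kˣ →₀ ℕ) : (pprod d).coeff 0 = 1 ∧
    (pprod d).coeff 1 = -∑ τ ∈ d.support, (d τ : k) * τ := by
  have hpow : ∀ (c : k) (n : ℕ), ((1 - C c * X) ^ n : k[X]).coeff 0 = 1 ∧
      ((1 - C c * X) ^ n : k[X]).coeff 1 = -((n : k) * c) := by
    intro c n
    induction n with
    | zero => simp [coeff_one]
    | succ n ih =>
      rw [pow_succ, mul_sub, mul_one, ← mul_assoc, mul_comm ((1 - C c * X) ^ n) (C c),
        mul_assoc, coeff_sub, coeff_sub, coeff_C_mul, coeff_C_mul, coeff_mul_X_zero,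
        coeff_mul_X, ih.1, ih.2]
      constructor
      · ring
      · push_cast
        ring
  have hs : ∀ s : Finset kˣ, (∏ τ ∈ s, (1 - C (τ : k) * X) ^ d τ : k[X]).coeff 0 = 1 ∧
      (∏ τ ∈ s, (1 - C (τ : k) * X) ^ d τ : k[X]).coeff 1 = -∑ τ ∈ s, (d τ : k) * τ := by
    classical
    intro s
    induction s using Finset.induction_on with
    | empty => simp [coeff_one]
    | insert τ s hτ ih =>
      have h3 : Finset.HasAntidiagonal.antidiagonal 1 = {((0 : ℕ), (1 : ℕ)), (1, 0)} := by decide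
      rw [Finset.prod_insert hτ, Finset.sum_insert hτ]
      constructor
      · rw [mul_coeff_zero, (hpow _ _).1, ih.1, one_mul]
      · rw [coeff_mul, h3, Finset.sum_pair (by decide), (hpow _ _).1, (hpow _ _).2, ih.1, ih.2]
        ring
  exact hs _

/-- The numerator. -/
theorem exists_h [IsAlgClosed k] {H : PowerSeries k} {D : ℕ} {e : Fin D → ℕ} (he : ∀ i, 0 < e i)
    {Q : k[X]} (hQ0 : Q ≠ 0) (hQ : ((mprod e : k[X]) : PowerSeries k) * H = (Q : PowerSeries k))
    (d : kˣ →₀ ℕ) (hgood : ∀ τ : kˣ, GoodAt (τ : k) (d τ) H) :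
    ∃ h : k[X], ((pprod d : k[X]) : PowerSeries k) * H = (h : PowerSeries k) ∧
      mprod e * h = pprod d * Q := by
  classical
  have hM0 := mprod_ne (k := k) he
  have hPQ : pprod d * Q ≠ 0 := mul_ne_zero (pprod_ne d) hQ0
  have hdvd : mprod e ∣ pprod d * Q := by
    apply (IsAlgClosed.splits _).dvd_of_roots_le_roots hM0
    rw [Multiset.le_iff_count]
    intro ρ
    rw [count_roots, count_roots, le_rootMultiplicity_iff hPQ]
    by_cases hρ : (mprod e : k[X]).IsRoot ρ
    · have hρ0 : ρ ≠ 0 := by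
        rintro rfl
        have h1 : eval 0 (mprod (k := k) e) = 0 := hρ
        rw [mprod_eval_zero he] at h1
        exact one_ne_zero h1
      obtain ⟨q, p, hq, hqp⟩ := hgood (Units.mk0 ρ hρ0)⁻¹
      set τ : kˣ := (Units.mk0 ρ hρ0)⁻¹ with hτ
      have hτρ : (τ : k)⁻¹ = ρ := by rw [hτ]; simp
      rw [hτρ] at hq
      have h2 : q * ((1 - C (τ : k) * X) ^ d τ * Q) = mprod e * p := by
        apply Polynomial.coe_injective
        rw [Polynomial.coe_mul, Polynomial.coe_mul, Polynomial.coe_pow, Polynomial.coe_mul,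
          ← hqp, ← hQ]
        ring
      have h3 : (X - C ρ) ^ rootMultiplicity ρ (mprod (k := k) e) ∣
          q * ((1 - C (τ : k) * X) ^ d τ * Q) := by
        rw [h2]
        exact (pow_rootMultiplicity_dvd _ _).mul_right _
      have h4 : ¬ (X - C ρ) ∣ q := by
        rw [dvd_iff_isRoot]
        exact hq
      have h5 := (prime_X_sub_C ρ).pow_dvd_of_dvd_mul_left _ h4 h3
      refine h5.trans (mul_dvd_mul_right ?_ Q)
      by_cases hτd : τ ∈ d.support
      · exact Finset.dvd_prod_of_mem (fun τ : kˣ => (1 - C (τ : k) * X) ^ d τ) hτd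
      · rw [Finsupp.notMem_support_iff] at hτd
        rw [hτd, pow_zero]
        exact one_dvd _
    · rw [rootMultiplicity_eq_zero hρ, pow_zero]
      exact one_dvd _
  obtain ⟨h, hh⟩ := hdvd
  refine ⟨h, ?_, hh.symm⟩
  have hMne : ((mprod e : k[X]) : PowerSeries k) ≠ 0 := by
    intro h0
    apply hM0
    apply Polynomial.coe_injective
    rw [h0, Polynomial.coe_zero]
  apply mul_left_cancel₀ hMne
  rw [← Polynomial.coe_mul, ← hh, Polynomial.coe_mul, ← hQ]
  ring

/-- the coefficients of the numerator in degrees zero and one -/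
theorem h_coeff {H : PowerSeries k} {h : k[X]} {d : kˣ →₀ ℕ}
    (hh : ((pprod d : k[X]) : PowerSeries k) * H = (h : PowerSeries k))
    (h0 : PowerSeries.coeff 0 H = 1) :
    h.coeff 0 = 1 ∧ PowerSeries.coeff 1 H = (∑ τ ∈ d.support, (d τ : k) * τ) + h.coeff 1 := by
  have h3 : Finset.HasAntidiagonal.antidiagonal 1 = {((0 : ℕ), (1 : ℕ)), (1, 0)} := by decide
  have h4 : Finset.HasAntidiagonal.antidiagonal 0 = {((0 : ℕ), (0 : ℕ))} := by decide
  constructor
  · have h1 := congrArg (PowerSeries.coeff 0) hh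
    rw [PowerSeries.coeff_mul, h4, Finset.sum_singleton, Polynomial.coeff_coe,
      Polynomial.coeff_coe, (pprod_coeff d).1, h0, one_mul] at h1
    exact h1.symm
  · have h1 := congrArg (PowerSeries.coeff 1) hh
    rw [PowerSeries.coeff_mul, h3, Finset.sum_pair (by decide), Polynomial.coeff_coe,
      Polynomial.coeff_coe, Polynomial.coeff_coe, (pprod_coeff d).1, (pprod_coeff d).2, h0,
      one_mul, mul_one] at h1
    rw [← h1]
    ring

end Pool.Agent.P8H35.TR
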