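import Mathlib

/-!
# A sum of few roots of unity is not a large integer
-/

set_option autoImplicit false

namespace Pool.Agent.P8H35.TR

theorem sum_roots_ne {k ι : Type*} [Field k] [CharZero k] (T : Finset ι) (hT : T.Nonempty)
    (κ : ι → k) (hκ : ∀ i ∈ T, IsOfFinOrder (κ i)) (N r : ℕ) (hr : 2 ≤ r) :
    (N : k) + ∑ i ∈ T, ((r : k) + κ i) ≠ 0 := by
  classical
  intro h
  let K₀ : IntermediateField ℚ k := algebraicClosure ℚ k
  have hmem : ∀ i ∈ T, κ i ∈ K₀ := by
    intro i hi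
    obtain ⟨n, hn, h1⟩ := isOfFinOrder_iff_pow_eq_one.1 (hκ i hi)
    change κ i ∈ algebraicClosure ℚ k
    rw [mem_algebraicClosure_iff]
    refine ⟨Polynomial.X ^ n - Polynomial.C 1, Polynomial.X_pow_sub_C_ne_zero hn 1, ?_⟩
    simp [h1]
  let κ' : ι → K₀ := fun i => if hi : i ∈ T then ⟨κ i, hmem i hi⟩ else 0
  have hκ' : ∀ i ∈ T, (κ' i : k) = κ i := by
    intro i hi
    simp only [κ', dif_pos hi]
  have halg : Algebra.IsAlgebraic ℚ K₀ := algebraicClosure.isAlgebraic ℚ k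
  let φ : K₀ →ₐ[ℚ] ℂ := IsAlgClosed.lift
  have h1 : (N : K₀) + ∑ i ∈ T, ((r : K₀) + κ' i) = 0 := by
    apply Subtype.ext
    push_cast
    rw [← h]
    congr 1
    exact Finset.sum_congr rfl fun i hi => by rw [hκ' i hi]
  have h2 := congrArg φ h1
  rw [map_add, map_sum, map_natCast, map_zero] at h2
  simp only [map_add, map_natCast] at h2
  rw [Finset.sum_add_distrib, Finset.sum_const, nsmul_eq_mul] at h2
  have h3 : ∀ i ∈ T, ‖φ (κ' i)‖ = 1 := by
    intro i hi
    obtain ⟨n, hn, h4⟩ := isOfFinOrder_iff_pow_eq_one.1 (hκ i hi)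
    have h5 : (κ' i) ^ n = 1 := by
      apply Subtype.ext
      push_cast
      rw [hκ' i hi, h4]
    have h6 : φ (κ' i) ^ n = 1 := by rw [← map_pow, h5, map_one]
    exact Complex.norm_eq_one_of_pow_eq_one h6 hn.ne'
  have h4 : ‖∑ i ∈ T, φ (κ' i)‖ ≤ T.card := by
    refine (norm_sum_le _ _).trans ?_
    rw [Finset.sum_congr rfl h3]
    simp
  have h5 : ∑ i ∈ T, φ (κ' i) = -(((N + T.card * r : ℕ) : ℂ)) := by
    push_cast
    linear_combination h2
  rw [h5, norm_neg, Complex.norm_natCast] at h4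
  have h6 : N + T.card * r ≤ T.card := by exact_mod_cast h4
  have h7 : 0 < T.card := Finset.card_pos.2 hT
  nlinarith

end Pool.Agent.P8H35.TR
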