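import Pool.Agent.P8H35.TR.Main

/-!
# Symmetry of the bigraded Hilbert function of an Artinian Gorenstein quotient
-/

set_option autoImplicit false
set_option linter.unusedSectionVars false

namespace Pool.Agent.P8H35.TR

open DirectSum

variable {k S A : Type*} [Field k] [CommRing S] [Algebra k S] [AddCommGroup A] [Fintype A]
  [DecidableEq A] {ℬ : ℕ × A → Submodule k S} [GradedAlgebra ℬ]

theorem sub_smul_mem {J : Ideal S} {y z : S} {c : k} (h : y - c • z ∈ J) (hy : y ∉ J) : c ≠ 0 := by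
  rintro rfl
  rw [zero_smul, sub_zero] at h
  exact hy h

/-- for a form `x` outside `J` there is a form `y` of complementary degree with `f (x y) ≠ 0` -/
theorem exists_pairing {J : Ideal S} {N : ℕ}
    (hN : ∀ n, N ≤ n → ∀ a, ∀ x ∈ ℬ (n, a), x ∈ J) {s : ℕ} {b : A} {w : S}
    (hsoc : ∀ (n : ℕ) (a : A) (y : S), y ∈ ℬ (n, a) → y ∉ J →
      (∀ m, 0 < m → ∀ a', ∀ x ∈ ℬ (m, a'), x * y ∈ J) →
      n = s ∧ a = b ∧ ∃ c : k, y - c • w ∈ J)
    (f : S →ₗ[k] k) (hfw : f w ≠ 0) (hfJ : ∀ x ∈ J, f x = 0) :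
    ∀ d i, N ≤ i + d → ∀ a, ∀ x ∈ ℬ (i, a), x ∉ J →
      i ≤ s ∧ ∃ y ∈ ℬ (s - i, b - a), f (x * y) ≠ 0 := by
  intro d
  induction d with
  | zero =>
    intro i hi a x hx hxJ
    exact absurd (hN i hi a x hx) hxJ
  | succ d ih =>
    intro i hi a x hx hxJ
    by_cases h : ∀ m, 0 < m → ∀ a', ∀ v ∈ ℬ (m, a'), v * x ∈ J
    · obtain ⟨hi', ha', c, hc⟩ := hsoc i a x hx hxJ h
      subst hi' ha'
      refine ⟨le_rfl, 1, ?_, ?_⟩
      · rw [Nat.sub_self, sub_self]; exact SetLike.one_mem_graded ℬ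
      · rw [mul_one]
        have h1 : f x = c * f w := by
          have h2 := hfJ _ hc
          rw [map_sub, map_smul, sub_eq_zero, smul_eq_mul] at h2
          exact h2
        rw [h1]
        exact mul_ne_zero (sub_smul_mem hc hxJ) hfw
    · push Not at h
      obtain ⟨m, hm, a', v, hv, hvx⟩ := h
      have hvx' : v * x ∈ ℬ (m + i, a' + a) := SetLike.mul_mem_graded hv hx
      obtain ⟨h1, y, hy, hfy⟩ := ih (m + i) (by omega) (a' + a) (v * x) hvx' hvx
      refine ⟨by omega, v * y, ?_, ?_⟩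
      · have h2 : (s - i, b - a) = (m, a') + (s - (m + i), b - (a' + a)) := by
          rw [Prod.mk_add_mk]
          congr 1
          · omega
          · abel
        rw [h2]
        exact SetLike.mul_mem_graded hv hy
      · rw [show x * (v * y) = v * x * y by ring]
        exact hfy

/-- inequality between dimensions from a pairing -/
theorem dd_le_of_pairing (hfin : ∀ i, FiniteDimensional k (ℬ i)) {J : Ideal S} {i j : ℕ × A}
    (f : S →ₗ[k] k) (hfJ : ∀ x ∈ J, f x = 0)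
    (h : ∀ x ∈ ℬ i, x ∉ J → ∃ y ∈ ℬ j, f (x * y) ≠ 0) : dd ℬ J i ≤ dd ℬ J j := by
  have := hfin
  let T : S →ₗ[k] Module.Dual k (ℬ j) :=
    (Module.Dual.transpose (ℬ j).subtype ∘ₗ Module.Dual.transpose (M' := S) (R := k) LinearMap.id)
      ∘ₗ ((LinearMap.mul k S).compr₂ f)
  have hT : ∀ (x : S) (y : ℬ j), T x y = f (x * y) := fun x y => rfl
  have h1 := finrank_map_add T (ℬ i)
  have h2 : ℬ i ⊓ LinearMap.ker T = ℬ i ⊓ J.restrictScalars k := by
    apply le_antisymm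
    · rintro x ⟨hx, hxT⟩
      refine ⟨hx, ?_⟩
      by_contra hxJ
      obtain ⟨y, hy, hfy⟩ := h x hx hxJ
      apply hfy
      have h3 : T x ⟨y, hy⟩ = 0 := by
        rw [show T x = 0 from hxT]; rfl
      exact h3
    · rintro x ⟨hx, hxJ⟩
      refine ⟨hx, ?_⟩
      change T x = 0
      ext y
      rw [hT]
      exact hfJ _ (J.mul_mem_right _ hxJ)
  rw [h2] at h1
  set U : Submodule k (ℬ j) := (ℬ j ⊓ J.restrictScalars k).comap (ℬ j).subtype with hU
  have h3 : (ℬ i).map T ≤ U.dualAnnihilator := by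
    rintro _ ⟨x, -, rfl⟩
    rw [Submodule.mem_dualAnnihilator]
    rintro y ⟨-, hy⟩
    rw [hT]
    exact hfJ _ (J.mul_mem_left _ hy)
  have h4 := Submodule.finrank_mono h3
  have h5 := Subspace.finrank_add_finrank_dualAnnihilator_eq U
  have h6 : Module.finrank k U = Module.finrank k (ℬ j ⊓ J.restrictScalars k : Submodule k S) :=
    LinearEquiv.finrank_eq (Submodule.comapSubtypeEquivOfLe inf_le_left)
  unfold dd
  have h7 : Module.finrank k ((ℬ i).map T) ≤ Module.finrank k U.dualAnnihilator := h4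
  rw [h6] at h5
  omega

/-- The symmetry of the bigraded Hilbert function of the Artinian quotient. -/
theorem dd_symm [IsNoetherianRing S] (h0 : ∀ x ∈ ℬ 0, ∃ c : k, x = algebraMap k S c)
    {J : Ideal S} (hhom : J.IsHomogeneous ℬ) {N : ℕ}
    (hN : ∀ n, N ≤ n → ∀ a, ∀ x ∈ ℬ (n, a), x ∈ J) {s : ℕ} {z : S}
    (hz : ∀ j : ℕ × A, j.1 ≠ s → decompose ℬ z j = 0) (hzJ : z ∉ J)
    (hsoc : ∀ y : S, (∀ m, 0 < m → ∀ a, ∀ x ∈ ℬ (m, a), x * y ∈ J) → ∃ c : k, y - c • z ∈ J) :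
    ∃ b : A, ((decompose ℬ z (s, b) : ℬ (s, b)) : S) ∉ J ∧
      (∀ i ≤ s, ∀ a, dd ℬ J (i, a) = dd ℬ J (s - i, b - a)) ∧
      (∀ i, s < i → ∀ a, dd ℬ J (i, a) = 0) := by
  classical
  have hfin : ∀ i, FiniteDimensional k (ℬ i) := finite_pieces h0
  obtain ⟨b, hb⟩ : ∃ b : A, ((decompose ℬ z (s, b) : ℬ (s, b)) : S) ∉ J := by
    by_contra hcon
    push Not at hcon
    apply hzJ
    apply mem_of_comp (ℬ := ℬ)
    rintro ⟨m, a⟩
    by_cases hm : m = s
    · subst hm; exact hcon a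
    · rw [hz (m, a) hm]
      exact J.zero_mem
  set w : S := ((decompose ℬ z (s, b) : ℬ (s, b)) : S) with hw
  have hwB : w ∈ ℬ (s, b) := (decompose ℬ z (s, b)).2
  -- homogeneous elements of the socle
  have hsoc' : ∀ (n : ℕ) (a : A) (y : S), y ∈ ℬ (n, a) → y ∉ J →
      (∀ m, 0 < m → ∀ a', ∀ x ∈ ℬ (m, a'), x * y ∈ J) →
      n = s ∧ a = b ∧ ∃ c : k, y - c • w ∈ J := by
    intro n a y hy hyJ h
    obtain ⟨c, hc⟩ := hsoc y h
    have hc0 := sub_smul_mem hc hyJ
    have h1 : (n, a) = (s, b) := by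
      by_contra hne
      have h2 := hhom (s, b) hc
      rw [decompose_sub, DirectSum.sub_apply, Submodule.coe_sub,
        decompose_of_mem_ne ℬ hy hne, zero_sub,
        decompose_smul, DirectSum.smul_apply, Submodule.coe_smul, neg_mem_iff] at h2
      apply hb
      have h3 : c⁻¹ • (c • w) ∈ J := by
        rw [Algebra.smul_def c⁻¹]
        exact J.mul_mem_left _ h2
      rwa [smul_smul, inv_mul_cancel₀ hc0, one_smul] at h3
    obtain ⟨rfl, rfl⟩ := Prod.mk.inj h1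
    refine ⟨rfl, rfl, c, ?_⟩
    have h2 := hhom (n, a) hc
    rwa [decompose_sub, DirectSum.sub_apply, Submodule.coe_sub, comp_self hy,
      decompose_smul, DirectSum.smul_apply, Submodule.coe_smul] at h2
  obtain ⟨f, hfw, hf0⟩ : ∃ f : S →ₗ[k] k, f w ≠ 0 ∧ ∀ x ∈ J, f x = 0 := by
    obtain ⟨f, h1, h2⟩ := Submodule.exists_dual_map_eq_bot_of_notMem (p := J.restrictScalars k)
      (x := w) hb inferInstance
    refine ⟨f, h1, fun x hx => ?_⟩
    have h3 : f x ∈ (J.restrictScalars k).map f := ⟨x, hx, rfl⟩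
    rw [h2] at h3
    exact h3
  have key := exists_pairing hN hsoc' f hfw hf0
  have hle : ∀ i, ∀ a, dd ℬ J (i, a) ≤ dd ℬ J (s - i, b - a) := by
    intro i a
    apply dd_le_of_pairing hfin f hf0
    intro x hx hxJ
    exact (key N i (by omega) a x hx hxJ).2
  refine ⟨b, hb, fun i hi a => le_antisymm (hle i a) ?_, fun i hi a => ?_⟩
  · have h1 := hle (s - i) (b - a)
    rwa [Nat.sub_sub_self hi, sub_sub_cancel] at h1
  · apply dd_eq_zero
    intro x hx
    by_contra hxJ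
    have h1 := (key N i (by omega) a x hx hxJ).1
    omega

end Pool.Agent.P8H35.TR
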