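import Pool.Agent.P8H35.TR.Poly

/-!
# The symmetry of the numerator of the trace series over the complex numbers
-/

set_option autoImplicit false

namespace Pool.Agent.P8H35.TR

open Polynomial

theorem factor_reverse {k : Type*} [Field k] (e : ℕ) :
    (1 - X ^ e : k[X]).reverse = C (-1) * (1 - X ^ e) := by
  rw [reverse, factor_natDegree, reflect_sub]
  have h1 : reflect e (X ^ e : k[X]) = 1 := by
    rw [← one_mul (X ^ e), ← C_1, reflect_C_mul_X_pow, revAt_le le_rfl]
    simp
  have h2 : reflect e (1 : k[X]) = X ^ e := by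
    rw [← C_1, reflect_C]
    simp
  rw [h1, h2]
  simp

theorem mprod_reverse {k : Type*} [Field k] {D : ℕ} (e : Fin D → ℕ) :
    (mprod (k := k) e).reverse = C ((-1) ^ D) * mprod e := by
  have h1 : ∀ s : Finset (Fin D), (∏ i ∈ s, (1 - X ^ e i : k[X])).reverse
      = ∏ i ∈ s, (C (-1) * (1 - X ^ e i)) := by
    intro s
    induction s using Finset.induction_on with
    | empty => rw [Finset.prod_empty, Finset.prod_empty, ← C_1, reverse_C]
    | insert i s hi ih =>
      rw [Finset.prod_insert hi, Finset.prod_insert hi, reverse_mul_of_domain, ih,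
        factor_reverse (e i)]
  have h2 : (C ((-1) ^ D) : k[X]) = ∏ _i : Fin D, (C (-1) : k[X]) := by
    rw [Finset.prod_const, Finset.card_univ, Fintype.card_fin, C_pow]
  rw [mprod, h1, h2, ← Finset.prod_mul_distrib]

theorem one_sub_pow_reverse {k : Type*} [Field k] (r : ℕ) :
    ((1 - X) ^ r : k[X]).reverse = C ((-1) ^ r) * (1 - X) ^ r := by
  have h1 : ((1 - X) ^ r : k[X]) = mprod (D := r) (fun _ => 1) := by
    rw [mprod, Finset.prod_const, Finset.card_univ, Fintype.card_fin, pow_one]
  rw [h1, mprod_reverse]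

/-- complex conjugation of the coefficients -/
noncomputable def pconj (p : ℂ[X]) : ℂ[X] := p.map (starRingEnd ℂ)

theorem pconj_mprod {D : ℕ} (e : Fin D → ℕ) : pconj (mprod e) = mprod e := by
  rw [pconj, mprod, Polynomial.map_prod]
  apply Finset.prod_congr rfl
  intro i _
  simp

theorem pconj_one_sub_pow (r : ℕ) : pconj ((1 - X) ^ r) = (1 - X) ^ r := by
  rw [pconj, Polynomial.map_pow]
  simp

/-- the symmetry of the numerator -/
theorem h_symm {D : ℕ} {e : Fin D → ℕ} (he : ∀ i, 0 < e i) {r : ℕ} {Q h : ℂ[X]}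
    (hh : mprod e * h = (1 - X) ^ r * Q) {u : ℂ} (hQ : Q.reverse = C u * pconj Q) :
    h.reverse = C ((-1) ^ (D + r) * u) * pconj h := by
  have h1 := congrArg reverse hh
  rw [reverse_mul_of_domain, reverse_mul_of_domain, mprod_reverse, one_sub_pow_reverse,
    hQ] at h1
  have h2 := congrArg pconj hh
  have h3 : pconj (mprod e) * pconj h = pconj ((1 - X) ^ r) * pconj Q := by
    simpa only [pconj, Polynomial.map_mul] using h2
  rw [pconj_mprod, pconj_one_sub_pow] at h3
  apply mul_left_cancel₀ (mprod_ne (k := ℂ) he)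
  have h4 : (C ((-1) ^ D) : ℂ[X]) * C ((-1) ^ D) = 1 := by
    rw [← C_mul, ← mul_pow]
    norm_num
  calc mprod e * h.reverse
      = C ((-1) ^ D) * C ((-1) ^ D) * (mprod e * h.reverse) := by rw [h4, one_mul]
    _ = C ((-1) ^ D) * (C ((-1) ^ D) * mprod e * h.reverse) := by ring
    _ = C ((-1) ^ D) * (C ((-1) ^ r) * (1 - X) ^ r * (C u * pconj Q)) := by rw [h1]
    _ = C ((-1) ^ D) * C ((-1) ^ r) * C u * ((1 - X) ^ r * pconj Q) := by ring
    _ = C ((-1) ^ D) * C ((-1) ^ r) * C u * (mprod e * pconj h) := by rw [h3]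
    _ = C ((-1) ^ (D + r) * u) * (mprod e * pconj h) := by
        rw [← C_mul, ← C_mul, ← pow_add]
    _ = mprod e * (C ((-1) ^ (D + r) * u) * pconj h) := by ring

/-- the coefficients of a numerator of degree three -/
theorem h_three {h : ℂ[X]} {w : ℂ} (hd : h.natDegree = 3) (h0 : h.coeff 0 = 1)
    (hs : h.reverse = C w * pconj h) :
    h.coeff 3 = w ∧ h.coeff 2 = w * (starRingEnd ℂ) (h.coeff 1) := by
  constructor
  · have h1 := congrArg (fun p : ℂ[X] => p.coeff 0) hs
    simp only [pconj, coeff_C_mul, coeff_map, h0, map_one, mul_one] at h1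
    rw [coeff_zero_reverse, leadingCoeff, hd] at h1
    exact h1
  · have h1 := congrArg (fun p : ℂ[X] => p.coeff 1) hs
    simp only [pconj, coeff_C_mul, coeff_map] at h1
    rw [coeff_reverse, hd, revAt_le (by norm_num)] at h1
    exact h1

end Pool.Agent.P8H35.TR
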