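import Pool.Agent.P8H35.TR.Sym
import Pool.Agent.P8H35.TR.SymPoly
import Pool.Agent.P8H35.TR.Aut

/-!
# The symmetric numerator of the trace series of a Gorenstein ring over the complex numbers
-/

set_option autoImplicit false
set_option linter.unusedSectionVars false

namespace Pool.Agent.P8H35.TR

open DirectSum

section Bigraded

variable {S A : Type*} [CommRing S] [Algebra ℂ S] [AddCommGroup A] [Fintype A]
  [DecidableEq A] {ℬ : ℕ × A → Submodule ℂ S} [GradedAlgebra ℬ] (χ : AddChar A ℂ)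

set_option linter.deprecated false in
/-- The numerator of the trace series when all poles are at `1`. -/
theorem sym_numerator [IsNoetherianRing S] (hχ : Function.Injective χ)
    (h0 : ∀ x ∈ ℬ 0, ∃ c : ℂ, x = algebraMap ℂ S c)
    (h0' : ∀ a ≠ 0, ∀ x ∈ ℬ (0, a), x = 0)
    {D : ℕ} (θ : Fin D → S) (e : Fin D → ℕ) (he : ∀ i, 0 < e i) (hθ : ∀ i, θ i ∈ ℬ (e i, 0))
    (hreg : RingTheory.Sequence.IsWeaklyRegular S (List.ofFn θ)) {N : ℕ}
    (hN : ∀ n, N ≤ n → ∀ a, ∀ x ∈ ℬ (n, a), x ∈ Ideal.span (Set.range θ)) {s : ℕ} {z : S}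
    (hz : ∀ j : ℕ × A, j.1 ≠ s → decompose ℬ z j = 0)
    (hzJ : z ∉ Ideal.span (Set.range θ))
    (hsoc : ∀ y : S, (∀ m, 0 < m → ∀ a, ∀ x ∈ ℬ (m, a), x * y ∈ Ideal.span (Set.range θ)) →
      ∃ c : ℂ, y - c • z ∈ Ideal.span (Set.range θ))
    (r : ℕ)
    (hd1 : ∃ t : Finset S, t.card ≤ r ∧
      (∀ x ∈ t, ∃ n, 0 < n ∧ ∀ j : ℕ × A, j.1 ≠ n → decompose ℬ x j = 0) ∧
      ∃ N, ∀ n, N ≤ n → ∀ a, ∀ x ∈ ℬ (n, a), x ∈ fixI ℬ χ (1 : ℂ) ⊔ Ideal.span (t : Set S))
    (hd : ∀ τ : ℂˣ, τ ≠ 1 → ∃ t : Finset S, t.card ≤ 0 ∧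
      (∀ x ∈ t, ∃ n, 0 < n ∧ ∀ j : ℕ × A, j.1 ≠ n → decompose ℬ x j = 0) ∧
      ∃ N, ∀ n, N ≤ n → ∀ a, ∀ x ∈ ℬ (n, a), x ∈ fixI ℬ χ (τ : ℂ) ⊔ Ideal.span (t : Set S)) :
    ∃ (b : A) (h : Polynomial ℂ),
      ((decompose ℬ z (s, b) : ℬ (s, b)) : S) ∉ Ideal.span (Set.range θ) ∧
      h.natDegree + ∑ i, e i = s + r ∧ h.coeff 0 = 1 ∧
      h.reverse = Polynomial.C ((-1) ^ (D + r) * χ b) * pconj h ∧
      (1 - PowerSeries.X) ^ r * hs ℬ χ ⊥ = (h : PowerSeries ℂ) := by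
  classical
  have hfin : ∀ i, FiniteDimensional ℂ (ℬ i) := finite_pieces h0
  obtain ⟨hhom, hhs⟩ := hs_regular χ hfin D θ e hθ hreg
  rw [ofList_ofFn] at hhom hhs
  set J : Ideal S := Ideal.span (Set.range θ) with hJ
  have hJtop : J ≠ ⊤ := fun h => hzJ (by rw [h]; trivial)
  obtain ⟨b, hb, hsym, hzero⟩ := dd_symm h0 hhom hN hz hzJ hsoc
  -- degree zero
  have hpiece : ∀ I : Ideal S, I ≠ ⊤ →
      PowerSeries.coeff 0 (hs ℬ χ I) = 1 := by
    intro I hI
    have h1 : dd ℬ I (0, 0) = 1 := by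
      apply dd_eq_one hfin (z := 1) (SetLike.one_mem_graded ℬ)
        (fun h => hI ((Ideal.eq_top_iff_one _).2 h))
      intro y hy
      obtain ⟨c, rfl⟩ := h0 y hy
      refine ⟨c, ?_⟩
      rw [Algebra.smul_def, mul_one, sub_self]
      exact I.zero_mem
    rw [hs, PowerSeries.coeff_mk, Finset.sum_eq_single (0 : A)]
    · rw [h1]
      simp
    · intro a _ ha
      rw [dd_eq_zero (fun x hx => by rw [h0' a ha x hx]; exact I.zero_mem)]
      simp
    · intro h; exact absurd (Finset.mem_univ _) h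
  -- the polynomial `Q`
  set Q : Polynomial ℂ := (hs ℬ χ J).trunc (s + 1) with hQ
  have hQc : ∀ n, Q.coeff n = PowerSeries.coeff n (hs ℬ χ J) := by
    intro n
    rw [hQ, PowerSeries.coeff_trunc]
    split_ifs with h
    · rfl
    · rw [hs, PowerSeries.coeff_mk]
      symm
      apply Finset.sum_eq_zero
      intro a _
      rw [hzero n (by omega) a]
      simp
  have hQ0 : Q.coeff 0 = 1 := by rw [hQc, hpiece J hJtop]
  have hQsym : ∀ i ≤ s, Q.coeff (s - i) = χ b * (starRingEnd ℂ) (Q.coeff i) := by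
    intro i hi
    rw [hQc, hQc, hs, PowerSeries.coeff_mk, PowerSeries.coeff_mk, map_sum, Finset.mul_sum]
    refine Fintype.sum_equiv (Equiv.subLeft b) _ _ fun a => ?_
    rw [Equiv.subLeft_apply, map_mul, map_intCast, ← AddChar.map_neg_eq_conj, ← mul_assoc,
      ← AddChar.map_add_eq_mul, hsym i hi (b - a), sub_sub_cancel]
    congr 2
    abel
  have hχb : χ b ≠ 0 := by
    intro h
    have h1 : χ b * χ (-b) = 1 := by
      rw [← AddChar.map_add_eq_mul, add_neg_cancel, AddChar.map_zero_eq_one]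
    rw [h, zero_mul] at h1
    exact zero_ne_one h1
  have hQdeg : Q.natDegree = s := by
    apply le_antisymm
    · rw [Polynomial.natDegree_le_iff_coeff_eq_zero]
      intro n hn
      rw [hQc, hs, PowerSeries.coeff_mk]
      apply Finset.sum_eq_zero
      intro a _
      rw [hzero n hn a]
      simp
    · apply Polynomial.le_natDegree_of_ne_zero
      have h1 := hQsym 0 (Nat.zero_le s)
      rw [Nat.sub_zero, hQ0, map_one, mul_one] at h1
      rw [h1]
      exact hχb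
  have hQne : Q ≠ 0 := by
    intro h
    rw [h, Polynomial.coeff_zero] at hQ0
    exact zero_ne_one hQ0
  have hQrev : Q.reverse = Polynomial.C (χ b) * pconj Q := by
    ext i
    rw [Polynomial.coeff_reverse, hQdeg, Polynomial.coeff_C_mul, pconj, Polynomial.coeff_map]
    by_cases hi : i ≤ s
    · rw [Polynomial.revAt_le hi]
      exact hQsym i hi
    · rw [Polynomial.revAt_eq_self_of_lt (by omega)]
      have h1 : Q.coeff i = 0 := Polynomial.coeff_eq_zero_of_natDegree_lt (by omega)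
      rw [h1]
      simp
  have hQcoe : ((mprod e : Polynomial ℂ) : PowerSeries ℂ) * hs ℬ χ ⊥ = (Q : PowerSeries ℂ) := by
    rw [← hhs]
    ext n
    rw [Polynomial.coeff_coe, hQc]
  -- the poles
  set d : ℂˣ →₀ ℕ := Finsupp.single 1 r with hdd
  have hgood : ∀ τ : ℂˣ, GoodAt (τ : ℂ) (d τ) (hs ℬ χ (⊥ : Ideal S)) := by
    intro τ
    have h1 : ∃ t : Finset S, t.card ≤ d τ ∧
      (∀ x ∈ t, ∃ n, 0 < n ∧ ∀ j : ℕ × A, j.1 ≠ n → decompose ℬ x j = 0) ∧
      ∃ N, ∀ n, N ≤ n → ∀ a, ∀ x ∈ ℬ (n, a), x ∈ fixI ℬ χ (τ : ℂ) ⊔ Ideal.span (t : Set S) := by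
      by_cases hτ : τ = 1
      · subst hτ
        rw [hdd, Finsupp.single_eq_same]
        exact hd1
      · rw [hdd, Finsupp.single_eq_of_ne hτ]
        exact hd τ hτ
    obtain ⟨t, htc, ht, N', hN'⟩ := h1
    apply GoodAt.mono htc
    apply goodAt_hs χ hfin τ.ne_zero hχ ⊥ (Ideal.IsHomogeneous.bot ℬ) t ht N'
    intro n hn a x hx
    rw [bot_sup_eq]
    exact hN' n hn a x hx
  have hpp : pprod d = (1 - Polynomial.X) ^ r := by
    by_cases hr : r = 0
    · subst hr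
      rw [hdd, pprod]
      simp
    · rw [hdd, pprod, Finsupp.support_single_ne_zero _ hr, Finset.prod_singleton,
        Finsupp.single_eq_same]
      simp
  obtain ⟨h, hh1, hh2⟩ := exists_h he hQne hQcoe d hgood
  have htop : (⊥ : Ideal S) ≠ ⊤ := by
    intro h
    apply hJtop
    rw [eq_top_iff, ← h]
    exact bot_le
  obtain ⟨hc0, hc1⟩ := h_coeff hh1 (hpiece ⊥ htop)
  rw [hpp] at hh1 hh2
  have hh0 : h ≠ 0 := by
    rintro rfl
    simp at hc0
  refine ⟨b, h, hb, ?_, hc0, h_symm he hh2 hQrev, ?_⟩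
  · have h1 := congrArg Polynomial.natDegree hh2
    have h2 : ((1 - Polynomial.X) ^ r : Polynomial ℂ) = mprod (D := r) (fun _ => 1) := by
      rw [mprod, Finset.prod_const, Finset.card_univ, Fintype.card_fin, pow_one]
    rw [h2, Polynomial.natDegree_mul (mprod_ne he) hh0,
      Polynomial.natDegree_mul (mprod_ne (fun _ => Nat.one_pos)) hQne,
      mprod_natDegree he, mprod_natDegree (fun _ => Nat.one_pos), hQdeg] at h1
    simp at h1
    omega
  · rw [← hh1]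
    simp

end Bigraded

section Aut

variable {S : Type*} [CommRing S] [Algebra ℂ S] {𝒜 : ℕ → Submodule ℂ S} [GradedAlgebra 𝒜]

/-- The trace series of an automorphism of finite order. -/
theorem sym_aut [IsNoetherianRing S]
    (h0 : ∀ x ∈ 𝒜 0, ∃ c : ℂ, x = algebraMap ℂ S c) (σ : S ≃ₐ[ℂ] S)
    (hσ : ∀ n, ∀ x ∈ 𝒜 n, σ x ∈ 𝒜 n) (hfin : IsOfFinOrder σ)
    {D : ℕ} (θ : Fin D → S) (e : Fin D → ℕ) (he : ∀ i, 0 < e i) (hθ : ∀ i, θ i ∈ 𝒜 (e i))
    (hθσ : ∀ i, σ (θ i) = θ i)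
    (hreg : RingTheory.Sequence.IsWeaklyRegular S (List.ofFn θ)) {N : ℕ}
    (hN : ∀ n, N ≤ n → ∀ x ∈ 𝒜 n, x ∈ Ideal.span (Set.range θ)) {s : ℕ} {z : S}
    (hz : z ∈ 𝒜 s) (hzJ : z ∉ Ideal.span (Set.range θ))
    (hsoc : ∀ y : S, (∀ m, 0 < m → ∀ x ∈ 𝒜 m, x * y ∈ Ideal.span (Set.range θ)) →
      ∃ c : ℂ, y - c • z ∈ Ideal.span (Set.range θ))
    (r : ℕ)
    (hd : ∀ τ : ℂ, τ ≠ 0 → ∃ t : Finset S, t.card ≤ (if τ = 1 then r else 0) ∧
      (∀ x ∈ t, ∃ n, 0 < n ∧ x ∈ 𝒜 n) ∧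
      ∃ N, ∀ n, N ≤ n → ∀ x ∈ 𝒜 n,
        x ∈ Ideal.span {y | ∃ n, ∃ s ∈ 𝒜 n, y = σ s - τ ^ n • s} ⊔ Ideal.span (t : Set S)) :
    ∃ (w : ℂ) (h : Polynomial ℂ), h.natDegree + ∑ i, e i = s + r ∧ h.coeff 0 = 1 ∧
      h.reverse = Polynomial.C w * pconj h ∧ ‖w‖ = 1 ∧
      (σ z - z ∈ Ideal.span (Set.range θ) → w = (-1) ^ (D + r)) ∧
      (1 - PowerSeries.X) ^ r * PowerSeries.mk
        (fun n => LinearMap.trace ℂ (𝒜 n) (resPiece (σ : S →ₐ[ℂ] S).toLinearMap hσ n))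
        = (h : PowerSeries ℂ) := by
  classical
  -- the bigrading
  set m : ℕ := orderOf σ with hm
  have hmpos : 0 < m := hfin.orderOf_pos
  have : NeZero m := ⟨hmpos.ne'⟩
  have : NeZero (m : ℂ) := ⟨by exact_mod_cast hmpos.ne'⟩
  obtain ⟨ζ, hζ⟩ := HasEnoughRootsOfUnity.exists_primitiveRoot ℂ m
  set χ : AddChar (ZMod m) ℂ := AddChar.zmodChar m hζ.pow_eq_one with hχdef
  have hχ : Function.Injective χ := by
    intro i j hij
    rw [hχdef, AddChar.zmodChar_apply, AddChar.zmodChar_apply] at hij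
    have h3 := hζ.pow_inj (ZMod.val_lt i) (ZMod.val_lt j) hij
    exact ZMod.val_injective m h3
  set f : S →ₐ[ℂ] S := (σ : S →ₐ[ℂ] S) with hf
  have hfσ : ∀ n, ∀ x ∈ 𝒜 n, f x ∈ 𝒜 n := hσ
  have hfm : f.toLinearMap ^ m = 1 := by
    have h3 : ∀ i : ℕ, ∀ x, (f.toLinearMap ^ i) x = (σ ^ i) x := by
      intro i
      induction i with
      | zero => intro x; rfl
      | succ i ih =>
        intro x
        rw [pow_succ', pow_succ']
        change f ((f.toLinearMap ^ i) x) = σ ((σ ^ i) x)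
        rw [ih]
        rfl
    apply LinearMap.ext
    intro x
    rw [h3, hm, pow_orderOf_eq_one]
    rfl
  have hm0 : (m : ℂ) ≠ 0 := NeZero.ne _
  let _ := bigrading 𝒜 hfσ hfm hm0 hχ
  have hsum : ∀ x : S, ∑ b, pr f χ b x = x := sum_pr hm0 hχ
  have hprm : ∀ (b : ZMod m) {n : ℕ} {x : S}, x ∈ 𝒜 n → pr f χ b x ∈ eig 𝒜 f χ (n, b) :=
    fun b {n x} hx => pr_mem 𝒜 hfσ hfm b hx
  have hcomp : ∀ {n : ℕ} {x : S}, x ∈ 𝒜 n → ∀ j : ℕ × ZMod m, j.1 ≠ n →
      decompose (eig 𝒜 f χ) x j = 0 := by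
    intro n x hx j hj
    apply Subtype.ext
    rw [← hsum x, comp_finset_sum, Submodule.coe_zero]
    apply Finset.sum_eq_zero
    intro b _
    exact decompose_of_mem_ne _ (hprm b hx) (fun h => hj (by rw [← h]))
  have hscal : ∀ x ∈ eig 𝒜 f χ 0, ∃ c : ℂ, x = algebraMap ℂ S c := fun x hx => h0 x hx.1
  have hmem : ∀ {J : Ideal S} {n : ℕ} {y : S},
      (∀ b, ∀ x ∈ eig 𝒜 f χ (n, b), x * y ∈ J) → ∀ x ∈ 𝒜 n, x * y ∈ J := by
    intro J n y h x hx
    rw [← hsum x, Finset.sum_mul]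
    exact J.sum_mem fun b _ => h b _ (hprm b hx)
  have hconv : ∀ (τ : ℂ) (r' : ℕ), (∃ t : Finset S, t.card ≤ r' ∧
      (∀ x ∈ t, ∃ n, 0 < n ∧ x ∈ 𝒜 n) ∧
      ∃ N, ∀ n, N ≤ n → ∀ x ∈ 𝒜 n,
        x ∈ Ideal.span {y | ∃ n, ∃ s ∈ 𝒜 n, y = σ s - τ ^ n • s} ⊔ Ideal.span (t : Set S)) →
      ∃ t : Finset S, t.card ≤ r' ∧
      (∀ x ∈ t, ∃ n, 0 < n ∧ ∀ j : ℕ × ZMod m, j.1 ≠ n → decompose (eig 𝒜 f χ) x j = 0) ∧
      ∃ N, ∀ n, N ≤ n → ∀ a, ∀ x ∈ eig 𝒜 f χ (n, a),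
        x ∈ fixI (eig 𝒜 f χ) χ τ ⊔ Ideal.span (t : Set S) := by
    rintro τ r' ⟨t, htc, ht, N', hN'⟩
    refine ⟨t, htc, ?_, N', ?_⟩
    · intro x hx
      obtain ⟨n, hn, hxn⟩ := ht x hx
      exact ⟨n, hn, hcomp hxn⟩
    · intro n hn c x hx
      have h3 : Ideal.span {y | ∃ n, ∃ s ∈ 𝒜 n, y = σ s - τ ^ n • s}
          ≤ fixI (eig 𝒜 f χ) χ τ := by
        rw [Ideal.span_le]
        rintro y ⟨l, w, hw, rfl⟩
        have h4 : σ w - τ ^ l • w = ∑ c, (χ c - τ ^ l) • pr f χ c w := by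
          have h5 : σ w = ∑ c, χ c • pr f χ c w := by
            conv_lhs => rw [← hsum w]
            rw [map_sum]
            exact Finset.sum_congr rfl fun c _ => (hprm c hw).2
          rw [h5]
          conv_lhs => rw [← hsum w]
          rw [Finset.smul_sum]
          simp only [hsum w]
          rw [← Finset.sum_sub_distrib]
          exact Finset.sum_congr rfl fun c _ => (sub_smul _ _ _).symm
        rw [h4]
        apply Ideal.sum_mem
        intro c _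
        by_cases hc : χ c = τ ^ l
        · rw [hc, sub_self, zero_smul]
          exact Ideal.zero_mem _
        · rw [Algebra.smul_def]
          exact Ideal.mul_mem_left _ _ (Ideal.subset_span ⟨l, c, hprm c hw, hc⟩)
      exact sup_le_sup_right h3 _ (hN' n hn x hx.1)
  obtain ⟨b, h, hb, hdeg, hc0, hrev, hser⟩ := sym_numerator (ℬ := eig 𝒜 f χ) χ hχ hscal
    (by
      rintro c hc x ⟨hx1, hx2⟩
      obtain ⟨r, rfl⟩ := h0 x hx1
      have h3 : f (algebraMap ℂ S r) = algebraMap ℂ S r := f.commutes r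
      rw [h3] at hx2
      have h4 : (χ c - 1) • (algebraMap ℂ S r) = 0 := by
        rw [sub_smul, one_smul, ← hx2, sub_self]
      rcases smul_eq_zero.1 h4 with h5 | h5
      · exfalso
        apply hc
        apply hχ
        rw [AddChar.map_zero_eq_one]
        exact sub_eq_zero.1 h5
      · exact h5)
    θ e he
    (fun i => ⟨hθ i, by
      change σ (θ i) = χ 0 • θ i
      rw [AddChar.map_zero_eq_one, one_smul, hθσ i]⟩)
    hreg (N := N) (fun n hn _ x hx => hN n hn x hx.1) (s := s) (z := z) (hcomp hz) hzJ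
    (fun y hy => hsoc y (fun l hl => hmem (hy l hl))) r
    (hconv 1 r (by simpa using hd 1 one_ne_zero))
    (fun τ hτ => hconv τ 0 (by
      have h1 : (τ : ℂ) ≠ 1 := fun h => hτ (Units.ext h)
      simpa [h1] using hd τ τ.ne_zero))
  have hnorm : ‖χ b‖ = 1 := AddChar.norm_apply χ b
  refine ⟨(-1) ^ (D + r) * χ b, h, hdeg, hc0, hrev, ?_, ?_, ?_⟩
  · rw [norm_mul, norm_pow, norm_neg, norm_one, one_pow, one_mul, hnorm]
  · intro hσz
    have hzz : z ∈ 𝒜 s := hz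
    set J : Ideal S := Ideal.span (Set.range θ) with hJ
    set zb : S := ((decompose (eig 𝒜 f χ) z (s, b) : eig 𝒜 f χ (s, b)) : S) with hzb
    have h1 : zb ∈ eig 𝒜 f χ (s, b) := (decompose (eig 𝒜 f χ) z (s, b)).2
    have hhom : J.IsHomogeneous (eig 𝒜 f χ) := by
      apply Ideal.homogeneous_span
      rintro _ ⟨i, rfl⟩
      refine ⟨(e i, 0), hθ i, ?_⟩
      change σ (θ i) = χ 0 • θ i
      rw [AddChar.map_zero_eq_one, one_smul, hθσ i]
    have h2 : ∀ c, pr f χ c z = ((decompose (eig 𝒜 f χ) z (s, c) : eig 𝒜 f χ (s, c)) : S) := by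
      intro c
      conv_rhs => rw [← hsum z]
      rw [comp_finset_sum, Finset.sum_eq_single c]
      · exact (comp_self (hprm c hz)).symm
      · intro c' _ hc'
        exact decompose_of_mem_ne _ (hprm c' hz) (fun h => hc' (Prod.mk.inj h).2)
      · intro h; exact absurd (Finset.mem_univ _) h
    have h3 : σ z = ∑ c, χ c • pr f χ c z := by
      conv_lhs => rw [← hsum z]
      rw [map_sum]
      exact Finset.sum_congr rfl fun c _ => (hprm c hz).2
    have h4 : ((decompose (eig 𝒜 f χ) (σ z) (s, b) : eig 𝒜 f χ (s, b)) : S) = χ b • zb := by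
      rw [h3, comp_finset_sum, Finset.sum_eq_single b]
      · rw [h2 b, comp_self (Submodule.smul_mem _ _ h1)]
      · intro c' _ hc'
        exact decompose_of_mem_ne _ (Submodule.smul_mem _ _ (hprm c' hz))
          (fun h => hc' (Prod.mk.inj h).2)
      · intro h; exact absurd (Finset.mem_univ _) h
    have h5 := hhom (s, b) hσz
    rw [decompose_sub, DirectSum.sub_apply, Submodule.coe_sub, h4, ← hzb] at h5
    have h6 : (χ b - 1) • zb ∈ J := by rw [sub_smul, one_smul]; exact h5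
    have h7 : χ b = 1 := by
      by_contra hne
      apply hb
      have h8 : (χ b - 1)⁻¹ • ((χ b - 1) • zb) ∈ J := by
        rw [Algebra.smul_def (χ b - 1)⁻¹]
        exact J.mul_mem_left _ h6
      rwa [smul_smul, inv_mul_cancel₀ (sub_ne_zero.2 hne), one_smul] at h8
    rw [h7, mul_one]
  · rw [← hser]
    congr 1
    ext n
    have hfd : FiniteDimensional ℂ (𝒜 n) := finite_pieces (ℬ := 𝒜) h0 n
    rw [hs, PowerSeries.coeff_mk, PowerSeries.coeff_mk]
    refine (trace_piece f hfσ hfm hm0 hχ n).trans ?_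
    apply Finset.sum_congr rfl
    intro a _
    rw [dd_bot]
    simp

end Aut

end Pool.Agent.P8H35.TR
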